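import Pool.Agent.H77.Nu.Chain2
import Pool.Agent.H67.Nu.TwoSided
import Pool.Agent.H67.Nu.Prefix11
import Pool.Agent.H43.Nu2.Glue

/-!
Chains which start and end with the prefix of eleven columns (MP_1e71f9_co).
-/

set_option autoImplicit false

namespace Pool.Agent.H77.Nu

open Finset Pool.Agent.H67.Nu

/-- After the prefix and one column. -/
def XE (P Q T : ℤ) : Prop := P = 1 ∨ (P = 0 ∧ (0 ≤ Q ∨ 1 ≤ T)) ∨ (P ≤ -1 ∧ -P ≤ Q)

/-- One column after `XS 1`. -/
def YO (P Q T : ℤ) : Prop :=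
  P = 1 ∨ (P = 0 ∧ ((1 ≤ Q ∧ 1 ≤ T) ∨ 2 ≤ Q)) ∨ (P ≤ -1 ∧ 1 - P ≤ Q)

/-- What is needed before the mirrored prefix. -/
def E1 (P Q _T : ℤ) : Prop := P = 1 ∨ (P ≤ 0 ∧ 1 - P ≤ Q)

theorem stepEX : LStep2 (-1) 0 XE (XS 1) := by
  refine LStep2.of 0 (by norm_num) fun P Q T h b => ?_
  unfold XE at h
  unfold XS
  cases b <;> simp only [mv_true, mv_false, Bool.not_true, Bool.not_false] <;>
    split_ifs <;> omega

theorem stepXY : LStep2 0 0 (XS 1) YO := by
  refine LStep2.of 1 (by norm_num) fun P Q T h b => ?_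
  unfold XS at h
  unfold YO
  cases b <;> simp only [mv_true, mv_false, Bool.not_true, Bool.not_false] <;>
    split_ifs <;> omega

theorem stepYS : LStep2 0 1 YO (S0 0) := by
  refine LStep2.of 1 (by norm_num) fun P Q T h b => ?_
  unfold YO at h
  unfold S0 F
  cases b <;> simp only [mv_true, mv_false, Bool.not_true, Bool.not_false] <;>
    split_ifs <;> omega

theorem stepSE : LStep2 0 0 (S0 0) E1 := by
  refine LStep2.of 1 (by norm_num) fun P Q T h b => ?_
  unfold S0 F at h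
  unfold E1
  cases b <;> simp only [mv_true, mv_false, Bool.not_true, Bool.not_false] <;>
    split_ifs <;> omega

theorem S0_mono {C D P Q T : ℤ} (hCD : C ≤ D) (h : S0 D P Q T) : S0 C P Q T := by
  unfold S0 F at h ⊢
  omega

theorem ExL.mono {N : ℕ} {R : ℤ} {X Y : ℤ → ℤ → ℤ → Prop} (h : ExL N R X)
    (hXY : ∀ P Q T, X P Q T → Y P Q T) : ExL N R Y := by
  obtain ⟨x, e, h⟩ := h
  refine ⟨x, e, fun s => ?_⟩
  obtain ⟨P, Q, T, hX, hP⟩ := h s
  exact ⟨P, Q, T, ⟨hXY _ _ _ hX.1, hX.2⟩, hP⟩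

/-- The prefix of eleven columns and one more column. -/
theorem start12 : ExL 11 6 XE := by
  obtain ⟨x, -, hcol⟩ := exists_col (fun j i => (P11.py j i : ℝ)) 11 (fun _ => true)
  refine ⟨x, fun _ => true, fun s => ?_⟩
  -- the states after the column
  have key : ∀ u : ℕ → Bool, St x 12 u
      (if u 11 = (P11.q0 u).2 then (P11.q0 u).1 else (P11.q0 u).1 + 1) (u 11) := by
    intro u
    have h1 := hcol u _ _ (P11.q_st u)
    have h2 := P11.q_pos u
    unfold step at h1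
    simp only at h1
    by_cases h3 : u 11 = (P11.q0 u).2
    · have h4 : u 11 = (true == (P11.q0 u).2) := by rw [h3]; cases (P11.q0 u).2 <;> rfl
      rw [if_pos ⟨by omega, h4⟩] at h1
      rw [if_pos h3]
      rw [← h3] at h1
      exact h1
    · have h4 : ¬ u 11 = (true == (P11.q0 u).2) := by
        intro h; apply h3; rw [h]; cases (P11.q0 u).2 <;> rfl
      rw [if_neg fun h => h4 h.2] at h1
      rw [if_neg h3]
      have e : (u 11 == true) = u 11 := by cases u 11 <;> rfl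
      rw [e] at h1
      exact h1
  have hxt : ∀ b : Bool, (b == true) = b := fun b => by cases b <;> rfl
  have e0 : P11.q0 (flip s 11) = P11.q0 s := P11.q_flip s 11 (by norm_num)
  have k0 := key s
  have kT := key (flip s 11)
  rw [e0, flip_apply_self] at kT
  have hp := P11.q_pos s
  obtain ⟨a, ha⟩ : ∃ a : ℕ, (P11.q0 s).1 = a := ⟨_, rfl⟩
  obtain ⟨σ, hσ⟩ : ∃ σ, (P11.q0 s).2 = σ := ⟨_, rfl⟩
  have hP := P11.q_P s
  rw [ha] at hp hP k0 kT
  rw [hσ] at hP k0 kT
  by_cases h6 : 6 ≤ a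
  · -- own level at least six
    have kQ := key (flip s 0)
    rw [flip_apply_ne (show (11 : ℕ) ≠ 0 by norm_num)] at kQ
    obtain ⟨q, hq⟩ : ∃ q : ℕ, (if s 11 = (P11.q0 (flip s 0)).2 then (P11.q0 (flip s 0)).1
      else (P11.q0 (flip s 0)).1 + 1) = q := ⟨_, rfl⟩
    rw [hq] at kQ
    by_cases h3 : s 11 = σ
    · rw [if_pos h3] at k0
      have h4 : ¬ (!s 11) = σ := by rw [h3]; cases σ <;> decide
      rw [if_neg h4] at kT
      by_cases h7 : a = 6
      · refine ⟨0, (q : ℤ) - 6, 1, ⟨?_, by norm_num⟩, ?_, ⟨0, by norm_num, ?_⟩, ?_⟩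
        · unfold XE; omega
        · rw [hxt]; simpa [h7] using k0
        · have e : ((q : ℤ) - 6 + 6).toNat = q := by omega
          rw [e, hxt]; exact kQ
        · rw [hxt]; simpa [h7] using kT
      · refine ⟨1, (q : ℤ) - 6, (a : ℤ) + 1 - 6, ⟨?_, by norm_num⟩, ?_, ⟨0, by norm_num, ?_⟩, ?_⟩
        · unfold XE; omega
        · rw [hxt]
          rcases Nat.lt_or_ge 7 a with h8 | h8
          · exact st_lower k0 (by simpa using h8) _
          · have h9 : a = 7 := by omega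
            subst h9; simpa using k0
        · have e : ((q : ℤ) - 6 + 6).toNat = q := by omega
          rw [e, hxt]; exact kQ
        · have e : ((a : ℤ) + 1 - 6 + 6).toNat = a + 1 := by omega
          rw [e, hxt]; exact kT
    · rw [if_neg h3] at k0
      have h4 : (!s 11) = σ := by
        revert h3; cases s 11 <;> cases σ <;> decide
      rw [if_pos h4] at kT
      refine ⟨1, (q : ℤ) - 6, (a : ℤ) - 6, ⟨?_, by norm_num⟩, ?_, ⟨0, by norm_num, ?_⟩, ?_⟩
      · unfold XE; omega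
      · rw [hxt]
        rcases Nat.lt_or_ge 7 (a + 1) with h8 | h8
        · exact st_lower k0 (by simpa using h8) _
        · have h9 : a = 6 := by omega
          subst h9; simpa using k0
      · have e : ((q : ℤ) - 6 + 6).toNat = q := by omega
        rw [e, hxt]; exact kQ
      · have e : ((a : ℤ) - 6 + 6).toNat = a := by omega
        rw [e, hxt]; exact kT
  · -- own level at most five
    rcases hP with h | ⟨i, hi, hsum⟩
    · exact absurd h h6
    have kQ := key (flip s i)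
    rw [flip_apply_ne (show (11 : ℕ) ≠ i by omega)] at kQ
    obtain ⟨b, hb⟩ : ∃ b : ℕ, (P11.q0 (flip s i)).1 = b := ⟨_, rfl⟩
    obtain ⟨τ, hτ⟩ : ∃ τ, (P11.q0 (flip s i)).2 = τ := ⟨_, rfl⟩
    rw [hb, hτ] at kQ
    rw [hb, hτ] at hsum
    obtain ⟨A, hA⟩ : ∃ A : ℕ, (if s 11 = σ then a else a + 1) = A := ⟨_, rfl⟩
    obtain ⟨B, hB⟩ : ∃ B : ℕ, (if s 11 = τ then b else b + 1) = B := ⟨_, rfl⟩
    obtain ⟨D, hD⟩ : ∃ D : ℕ, (if (!s 11) = σ then a else a + 1) = D := ⟨_, rfl⟩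
    rw [hA] at k0
    rw [hB] at kQ
    rw [hD] at kT
    have hAB : 12 ≤ A + B ∧ 1 ≤ A ∧ A ≤ 6 := by
      rcases hsum with h | ⟨h, h'⟩
      · refine ⟨?_, ?_, ?_⟩
        · rw [← hA, ← hB]; split_ifs <;> omega
        · rw [← hA]; split_ifs <;> omega
        · rw [← hA]; split_ifs <;> omega
      · refine ⟨?_, ?_, ?_⟩
        · rw [← hA, ← hB, h']
          cases s 11 <;> cases σ <;> simp <;> omega
        · rw [← hA]; split_ifs <;> omega
        · rw [← hA]; split_ifs <;> omega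
    refine ⟨(A : ℤ) - 6, (B : ℤ) - 6, (D : ℤ) - 6, ⟨?_, by omega⟩, ?_, ⟨i, hi, ?_⟩, ?_⟩
    · unfold XE; omega
    · have e : ((A : ℤ) - 6 + 6).toNat = A := by omega
      rw [e, hxt]; exact k0
    · have e : ((B : ℤ) - 6 + 6).toNat = B := by omega
      rw [e, hxt]; exact kQ
    · have e : ((D : ℤ) - 6 + 6).toNat = D := by omega
      rw [e, hxt]; exact kT

/-- The prefix and two columns. -/
theorem start13 : ExL 12 6 (XS 1) := by
  simpa using start12.lom stepEX (by norm_num)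

/-- The mirrored prefix at the end. -/
theorem ExL.glue {N : ℕ} {R : ℤ} (h : ExL N R E1) {r : ℕ} (hr : (r : ℤ) = R + 5) :
    Bad (N + 12) r := by
  obtain ⟨x, e, h⟩ := h
  obtain ⟨x', hx'⟩ := Pool.Agent.H43.Nu2.exists_glue x
    (fun j i => sg (e (r - 1 - i)) * (P11.py j i : ℝ)) (N + 1) 11 r
  refine ⟨x', fun s => ?_⟩
  obtain ⟨P, Q, T, ⟨hX, hPR⟩, hP, ⟨i, hi, hQ⟩, -⟩ := h s
  obtain ⟨w', hw', hR⟩ := right_end P11.q_P (fun j => s (N + 1 + j))
  -- the right flip as a flip of the whole vector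
  obtain ⟨v, hv, hvl, hvr⟩ : ∃ v, (v = s ∨ ∃ i < N + 12, v = flip s i) ∧
      (∀ j < N + 1, v j = s j) ∧ (fun j => v (N + 1 + j)) = w' := by
    rcases hw' with rfl | ⟨i, hi, rfl⟩
    · exact ⟨s, Or.inl rfl, fun _ _ => rfl, rfl⟩
    · exact ⟨flip s (N + 1 + i), Or.inr ⟨N + 1 + i, by omega, rfl⟩,
        fun j hj => flip_apply_ne (by omega), flip_shift s (N + 1) i⟩
  have hPv : St x (N + 1) v (P + R).toNat (s N == e ((P + R).toNat - 1)) :=
    st_congr (fun j hj => hvl j hj) hP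
  have hwr : (fun j => flip s i (N + 1 + j)) = fun j => s (N + 1 + j) :=
    flip_shift_lt s (N + 1) i (by omega)
  have hzs := (P11.q_st (fun j => s (N + 1 + j))).gauge fun i => e (r - 1 - i)
  have hzv := (P11.q_st w').gauge fun i => e (r - 1 - i)
  have hqs := P11.q_pos (fun j => s (N + 1 + j))
  have hqw := P11.q_pos w'
  obtain ⟨⟨a', ε'⟩, hq⟩ : ∃ q, P11.q0 (fun j => s (N + 1 + j)) = q := ⟨_, rfl⟩
  obtain ⟨⟨b', δ'⟩, hqv⟩ : ∃ q, P11.q0 w' = q := ⟨_, rfl⟩
  rw [hq] at hzs hqs hR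
  rw [hqv] at hzv hqw hR
  obtain ⟨a, ha⟩ : ∃ a : ℕ, (P + R).toNat = a := ⟨_, rfl⟩
  obtain ⟨b, hb⟩ : ∃ b : ℕ, (Q + R).toNat = b := ⟨_, rfl⟩
  rw [ha] at hP hPv
  rw [hb] at hQ
  simp only at hzs hzv hqs hqw hR
  have dead_s : r + 2 ≤ a + a' → ∃ w, (w = s ∨ ∃ i < N + 12, w = flip s i) ∧
      Dead x' (N + 12) r w := fun h => ⟨s, Or.inl rfl, hx' s a a' _ _ hP hzs (Or.inl h)⟩
  have dead_w : (r + 2 ≤ b + a' ∨ (b + a' = r + 1 ∧
      (s N == e (b - 1)) ≠ (ε' == e (r - 1 - (a' - 1))))) →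
      ∃ w, (w = s ∨ ∃ i < N + 12, w = flip s i) ∧ Dead x' (N + 12) r w := fun h =>
    ⟨flip s i, Or.inr ⟨i, by omega, rfl⟩,
      hx' (flip s i) b a' _ _ hQ (by rw [hwr]; exact hzs) h⟩
  have dead_v : (r + 2 ≤ a + b' ∨ (a + b' = r + 1 ∧
      (s N == e (a - 1)) ≠ (δ' == e (r - 1 - (b' - 1))))) →
      ∃ w, (w = s ∨ ∃ i < N + 12, w = flip s i) ∧ Dead x' (N + 12) r w := fun h =>
    ⟨v, hv, hx' v a b' _ _ hPv (by rw [hvr]; exact hzv) h⟩
  rcases hX with h1 | ⟨h1, h2⟩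
  · -- own level above
    rcases hR with h | ⟨h3, h, -⟩
    · by_cases h4 : r + 2 ≤ a + a'
      · exact dead_s h4
      · exact dead_v (Or.inl (by omega))
    · exact dead_v (Or.inl (by omega))
  · by_cases c1 : r + 2 ≤ b + a'
    · exact dead_w (Or.inl c1)
    by_cases c2 : r + 2 ≤ a + b'
    · exact dead_v (Or.inl c2)
    have hab : b + a' = r + 1 ∧ a + b' = r + 1 ∧ δ' = !ε' := by
      rcases hR with h | ⟨-, h, h2⟩
      · omega
      · exact ⟨by omega, by omega, h2⟩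
    obtain ⟨e3, e4, e5⟩ := hab
    have i1 : r - 1 - (a' - 1) = b - 1 := by omega
    have i2 : r - 1 - (b' - 1) = a - 1 := by omega
    by_cases hxe : s N = ε'
    · refine dead_v (Or.inr ⟨e4, ?_⟩)
      rw [i2, e5, hxe]
      cases ε' <;> cases e (a - 1) <;> decide
    · refine dead_w (Or.inr ⟨e3, ?_⟩)
      rw [i1]
      revert hxe
      cases s N <;> cases ε' <;> cases e (b - 1) <;> decide

theorem stepE1X : LStep2 0 1 E1 XE := by
  refine LStep2.of 1 (by norm_num) fun P Q T h b => ?_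
  unfold E1 at h
  unfold XE
  cases b <;> simp only [mv_true, mv_false, Bool.not_true, Bool.not_false] <;>
    split_ifs <;> omega

/-- The ends of a chain: `0` rows and one column. -/
theorem ExL.end0 {N : ℕ} {R : ℤ} (hR : 1 ≤ R) (h : ExL N R (S0 0)) : ExL (N + 1) R E1 := by
  simpa using h.lom stepSE (by omega)

/-- Two columns, one row. -/
theorem ExL.up {N : ℕ} {R : ℤ} (hR : 1 ≤ R) (h : ExL N R (XS 1)) : ExL (N + 2) (R + 1) (S0 0) := by
  have := (h.lom stepXY (by omega)).lom stepYS (by omega)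
  simpa [add_assoc] using this

theorem ExL.X0' {N : ℕ} {R : ℤ} (h : ExL N R (XS 1)) : ExL N R (S0 0) := by
  have e : (1 : ℤ) = 0 + 1 := by norm_num
  rw [e] at h
  exact h.X0 (by norm_num)

/-- Five columns, two rows. -/
theorem ExL.two {N : ℕ} {R : ℤ} (hR : 1 ≤ R) (h : ExL N R (S0 0)) :
    ExL (N + 5) (R + 2) (S0 0) := by
  have := ((h.end0 hR).lom stepE1X (by omega)).lom stepEX (by omega)
  have h2 := this.up (by omega)
  have e1 : N + 1 + 1 + 1 + 2 = N + 5 := by ring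
  have e2 : R + 1 + 0 + 1 = R + 2 := by ring
  rwa [e1, e2] at h2

/-- The first two columns. -/
theorem start2 : ExL 1 1 YO := by
  obtain ⟨x, hx⟩ : ∃ x : ℕ → ℕ → ℝ, ∀ s : ℕ → Bool, St x 1 s 1 (s 0) := by
    refine ⟨fun _ _ => 1, fun s c hc hj => ?_⟩
    obtain ⟨i, hi, hci⟩ := hc
    have hi0 : i = 0 := by omega
    subst hi0
    have h0 := hj 0 (by omega)
    simp only [sum_range_one, mul_one] at h0
    refine lt_of_le_of_ne h0 (Ne.symm (mul_ne_zero ?_ hci))
    cases s 0 <;> simp [sg]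
  obtain ⟨x', -, hcol⟩ := exists_col x 1 (fun _ => true)
  refine ⟨x', fun _ => true, fun s => ?_⟩
  have key : ∀ u : ℕ → Bool, St x' 2 u (if u 0 = u 1 then 1 else 2) (u 1) := by
    intro u
    have h1 := hcol u 1 (u 0) (hx u)
    unfold step at h1
    cases h0 : u 0 <;> cases h2 : u 1 <;> simp [h0, h2] at h1 ⊢ <;> exact h1
  have hxt : ∀ b : Bool, (b == true) = b := fun b => by cases b <;> rfl
  have k0 := key s
  have kQ := key (flip s 0)
  have kT := key (flip s 1)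
  rw [flip_apply_self, flip_apply_ne (show (1 : ℕ) ≠ 0 by norm_num)] at kQ
  rw [flip_apply_self, flip_apply_ne (show (0 : ℕ) ≠ 1 by norm_num)] at kT
  by_cases h : s 0 = s 1
  · rw [if_pos h] at k0
    have h1 : ¬ (!s 0) = s 1 := by rw [h]; cases s 1 <;> decide
    have h2 : ¬ s 0 = !s 1 := by rw [h]; cases s 1 <;> decide
    rw [if_neg h1] at kQ
    rw [if_neg h2] at kT
    refine ⟨0, 1, 1, ⟨by unfold YO; omega, by norm_num⟩, ?_, ⟨0, by norm_num, ?_⟩, ?_⟩
    · rw [hxt]; simpa using k0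
    · rw [hxt]; simpa using kQ
    · rw [hxt]; simpa using kT
  · rw [if_neg h] at k0
    have h1 : (!s 0) = s 1 := by revert h; cases s 0 <;> cases s 1 <;> decide
    have h2 : s 0 = !s 1 := by revert h; cases s 0 <;> cases s 1 <;> decide
    rw [if_pos h1] at kQ
    rw [if_pos h2] at kT
    refine ⟨1, 0, 0, ⟨by unfold YO; omega, by norm_num⟩, ?_, ⟨0, by norm_num, ?_⟩, ?_⟩
    · rw [hxt]; simpa using k0
    · rw [hxt]; simpa using kQ
    · rw [hxt]; simpa using kT

theorem start3 : ExL 2 2 (S0 0) := by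
  simpa using start2.lom stepYS (by norm_num)

/-- The tail alone. -/
theorem tail (k : ℕ) : ExL (2 + 5 * k) (2 + 2 * k) (S0 0) := by
  induction k with
  | zero => simpa using start3
  | succ k ih =>
    have := ih.two (by omega)
    have e1 : 2 + 5 * (k + 1) = 2 + 5 * k + 5 := by ring
    have e2 : (2 : ℤ) + 2 * ((k + 1 : ℕ) : ℤ) = 2 + 2 * k + 2 := by push_cast; ring
    rw [e1, e2]; exact this

theorem bad_even (k : ℕ) : Bad (3 + 5 * k) (2 + 2 * k) := by
  have := (tail k).toEx.bad (2 + 2 * k) (by push_cast; omega)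
  have e : 2 + 5 * k + 1 = 3 + 5 * k := by ring
  rwa [e] at this

theorem bad_odd (k : ℕ) : Bad (6 + 5 * k) (3 + 2 * k) := by
  have h := (((tail k).end0 (by omega)).lom stepE1X (by omega)).lom stepEX (by omega)
  have := h.toEx
  have e : (1 : ℤ) = 0 + 1 := by norm_num
  rw [e] at this
  have h2 := (this.X0 (by norm_num)).bad (3 + 2 * k) (by push_cast; omega)
  have e2 : 2 + 5 * k + 1 + 1 + 1 + 1 = 6 + 5 * k := by ring
  rwa [e2] at h2

end Pool.Agent.H77.Nu
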