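import Pool.Agent.H67.Nu.Defs

/-!
A whole block of columns appended at a new scale (MP_1e71f9_co).
-/

set_option autoImplicit false

namespace Pool.Agent.H77.Nu

open Finset Pool.Agent.H67.Nu

/-- Compactness: if `g` is positive on the nonzero vectors of a polyhedral cone of `ℝ^a`, then it
is so quantitatively, with an error in the inequalities. -/
theorem quant (a q : ℕ) (f : ℕ → ℕ → ℝ) (g : ℕ → ℝ)
    (h : ∀ c : ℕ → ℝ, (∃ i < a, c i ≠ 0) → (∀ j < q, 0 ≤ ∑ i ∈ range a, c i * f j i) →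
      0 < ∑ i ∈ range a, c i * g i) :
    ∃ κ : ℝ, 0 < κ ∧ ∀ (c : ℕ → ℝ) (δ : ℝ), 0 ≤ δ →
      (∀ j < q, -δ ≤ ∑ i ∈ range a, c i * f j i) →
      ∀ i < a, κ * |c i| ≤ max δ (∑ i ∈ range a, c i * g i) := by
  classical
  let ext : (Fin a → ℝ) → ℕ → ℝ := fun c i => if hi : i < a then c ⟨i, hi⟩ else 0
  have hext : ∀ i, Continuous fun c : Fin a → ℝ => ext c i := by
    intro i
    by_cases hi : i < a
    · have : (fun c : Fin a → ℝ => ext c i) = fun c => c ⟨i, hi⟩ := by
        funext c; exact dif_pos hi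
      rw [this]; exact continuous_apply _
    · have : (fun c : Fin a → ℝ => ext c i) = fun _ => (0 : ℝ) := by
        funext c; exact dif_neg hi
      rw [this]; exact continuous_const
  let F : ℕ → (Fin a → ℝ) → ℝ := fun j c => ∑ i ∈ range a, ext c i * f j i
  let Gg : (Fin a → ℝ) → ℝ := fun c => ∑ i ∈ range a, ext c i * g i
  have hF : ∀ j, Continuous (F j) := fun j =>
    continuous_finsetSum _ fun i _ => (hext i).mul continuous_const
  have hG : Continuous Gg := continuous_finsetSum _ fun i _ => (hext i).mul continuous_const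
  let G : (Fin a → ℝ) → ℝ := fun c => (∑ j ∈ range q, max 0 (- F j c)) + max 0 (Gg c)
  have hGc : Continuous G :=
    (continuous_finsetSum _ fun j _ => continuous_const.max (hF j).neg).add
      (continuous_const.max hG)
  have hpos : ∀ c ∈ Metric.sphere (0 : Fin a → ℝ) 1, 0 < G c := by
    intro c hc
    have hs0 : 0 ≤ ∑ j ∈ range q, max 0 (- F j c) := sum_nonneg fun j _ => le_max_left _ _
    by_cases hz : ∀ j < q, 0 ≤ F j c
    · have hne : ∃ i < a, ext c i ≠ 0 := by
        by_contra hcon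
        push Not at hcon
        have hc0 : c = 0 := by
          funext i
          have h2 := hcon i i.2
          have h3 : ext c (i : ℕ) = c i := dif_pos i.2
          rw [h3] at h2; exact h2
        have h1 : ‖c‖ = 1 := by simpa using hc
        rw [hc0] at h1
        simp at h1
      have h4 : 0 < Gg c := h (ext c) hne hz
      have h5 : Gg c ≤ max 0 (Gg c) := le_max_right _ _
      show 0 < (∑ j ∈ range q, max 0 (- F j c)) + max 0 (Gg c)
      linarith
    · push Not at hz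
      obtain ⟨j, hj, hlt⟩ := hz
      have h4 : max 0 (- F j c) ≤ ∑ j ∈ range q, max 0 (- F j c) :=
        single_le_sum (f := fun j => max 0 (- F j c)) (fun _ _ => le_max_left _ _)
          (mem_range.2 hj)
      have h5 : - F j c ≤ max 0 (- F j c) := le_max_right _ _
      have h6 : 0 ≤ max 0 (Gg c) := le_max_left _ _
      show 0 < (∑ j ∈ range q, max 0 (- F j c)) + max 0 (Gg c)
      linarith
  obtain ⟨κ, hκ, hκK⟩ : ∃ κ : ℝ, 0 < κ ∧ ∀ c ∈ Metric.sphere (0 : Fin a → ℝ) 1, κ ≤ G c := by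
    rcases (Metric.sphere (0 : Fin a → ℝ) 1).eq_empty_or_nonempty with hK | hK
    · exact ⟨1, one_pos, by simp [hK]⟩
    · obtain ⟨c0, hc0, hmin⟩ := (isCompact_sphere _ _).exists_isMinOn hK hGc.continuousOn
      exact ⟨G c0, hpos c0 hc0, fun c hc => hmin hc⟩
  have hq : (0 : ℝ) < q + 1 := by positivity
  refine ⟨κ / (q + 1), div_pos hκ hq, fun c δ hδ hc i hi => ?_⟩
  let d : Fin a → ℝ := fun k => c k
  have hed : ∀ k < a, ext d k = c k := by
    intro k hk; exact dif_pos hk
  have hFd : ∀ j, F j d = ∑ i ∈ range a, c i * f j i := fun j =>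
    sum_congr rfl fun k hk => by rw [hed k (mem_range.1 hk)]
  have hGd : Gg d = ∑ i ∈ range a, c i * g i :=
    sum_congr rfl fun k hk => by rw [hed k (mem_range.1 hk)]
  have hci : |c i| ≤ ‖d‖ := by
    have := norm_le_pi_norm d ⟨i, hi⟩
    simpa [d] using this
  have hbig : κ * ‖d‖ ≤ (q + 1) * max δ (Gg d) := by
    by_cases hd : d = 0
    · rw [hd, norm_zero, mul_zero]
      exact mul_nonneg hq.le (le_trans hδ (le_max_left _ _))
    · have hn : 0 < ‖d‖ := norm_pos_iff.2 hd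
      have hK : ‖d‖⁻¹ • d ∈ Metric.sphere (0 : Fin a → ℝ) 1 := by
        simp [norm_smul, hn.ne']
      have h1 := hκK _ hK
      have hlin : ∀ k, ext (‖d‖⁻¹ • d) k = ‖d‖⁻¹ * ext d k := by
        intro k
        by_cases hk : k < a
        · have e1 : ext (‖d‖⁻¹ • d) k = (‖d‖⁻¹ • d) ⟨k, hk⟩ := dif_pos hk
          have e2 : ext d k = d ⟨k, hk⟩ := dif_pos hk
          rw [e1, e2]; rfl
        · have e1 : ext (‖d‖⁻¹ • d) k = 0 := dif_neg hk
          have e2 : ext d k = 0 := dif_neg hk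
          rw [e1, e2, mul_zero]
      have hFl : ∀ j, F j (‖d‖⁻¹ • d) = ‖d‖⁻¹ * F j d := by
        intro j
        show ∑ i ∈ range a, ext (‖d‖⁻¹ • d) i * f j i = ‖d‖⁻¹ * ∑ i ∈ range a, ext d i * f j i
        rw [mul_sum]
        exact sum_congr rfl fun k _ => by rw [hlin k]; ring
      have hGl : Gg (‖d‖⁻¹ • d) = ‖d‖⁻¹ * Gg d := by
        show ∑ i ∈ range a, ext (‖d‖⁻¹ • d) i * g i = ‖d‖⁻¹ * ∑ i ∈ range a, ext d i * g i
        rw [mul_sum]
        exact sum_congr rfl fun k _ => by rw [hlin k]; ring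
      have h2 : G (‖d‖⁻¹ • d) ≤ ‖d‖⁻¹ * ((q + 1) * max δ (Gg d)) := by
        have hinv : 0 ≤ ‖d‖⁻¹ := inv_nonneg.2 hn.le
        have hmx : 0 ≤ max δ (Gg d) := le_trans hδ (le_max_left _ _)
        have e1 : ∀ j ∈ range q, max 0 (- F j (‖d‖⁻¹ • d)) ≤ ‖d‖⁻¹ * max δ (Gg d) := by
          intro j hj
          refine max_le (mul_nonneg hinv hmx) ?_
          rw [hFl j]
          have h3 := hc j (mem_range.1 hj)
          rw [← hFd j] at h3
          calc -(‖d‖⁻¹ * F j d) = ‖d‖⁻¹ * (- F j d) := by ring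
            _ ≤ ‖d‖⁻¹ * max δ (Gg d) :=
              mul_le_mul_of_nonneg_left (le_trans (by linarith) (le_max_left _ _)) hinv
        have e2 : max 0 (Gg (‖d‖⁻¹ • d)) ≤ ‖d‖⁻¹ * max δ (Gg d) := by
          refine max_le (mul_nonneg hinv hmx) ?_
          rw [hGl]
          exact mul_le_mul_of_nonneg_left (le_max_right _ _) hinv
        calc G (‖d‖⁻¹ • d)
            ≤ (∑ j ∈ range q, ‖d‖⁻¹ * max δ (Gg d)) + ‖d‖⁻¹ * max δ (Gg d) :=
              add_le_add (sum_le_sum e1) e2
          _ = ‖d‖⁻¹ * ((q + 1) * max δ (Gg d)) := by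
              rw [sum_const, card_range, nsmul_eq_mul]; ring
      have h3 := le_trans h1 h2
      have h4 : κ * ‖d‖ ≤ ‖d‖⁻¹ * ((q + 1) * max δ (Gg d)) * ‖d‖ :=
        mul_le_mul_of_nonneg_right h3 hn.le
      have h5 : ‖d‖⁻¹ * ((q + 1) * max δ (Gg d)) * ‖d‖ = (q + 1) * max δ (Gg d) := by
        field_simp
      rwa [h5] at h4
  rw [← hGd]
  have h6 : κ * |c i| ≤ (q + 1) * max δ (Gg d) :=
    le_trans (mul_le_mul_of_nonneg_left hci hκ.le) hbig
  rw [div_mul_eq_mul_div, div_le_iff₀ hq]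
  linarith

theorem sg_abs (b : Bool) : |sg b| = 1 := by
  cases b <;> simp [sg]

/-- Quantitative form of a state. -/
theorem st_quant (x : ℕ → ℕ → ℝ) (n : ℕ) (s : ℕ → Bool) (a : ℕ) (ε : Bool) (ha : 1 ≤ a)
    (h : St x n s a ε) :
    ∃ κ : ℝ, 0 < κ ∧ ∀ (c : ℕ → ℝ) (δ : ℝ), 0 ≤ δ →
      (∀ j < n, -δ ≤ sg (s j) * ∑ i ∈ range a, c i * x j i) →
      ∀ i < a, κ * |c i| ≤ max δ (sg ε * c (a - 1)) := by
  have hg : ∀ c : ℕ → ℝ, ∑ i ∈ range a, c i * (if i = a - 1 then sg ε else 0)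
      = sg ε * c (a - 1) := by
    intro c
    rw [sum_eq_single_of_mem (a - 1) (mem_range.2 (by omega))]
    · rw [if_pos rfl]; ring
    · intro i _ hi; rw [if_neg hi, mul_zero]
  have hf : ∀ (c : ℕ → ℝ) (j : ℕ), ∑ i ∈ range a, c i * (sg (s j) * x j i)
      = sg (s j) * ∑ i ∈ range a, c i * x j i := by
    intro c j
    rw [mul_sum]
    exact sum_congr rfl fun i _ => by ring
  obtain ⟨κ, hκ, hK⟩ := quant a n (fun j i => sg (s j) * x j i)
    (fun i => if i = a - 1 then sg ε else 0) (by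
      intro c hc hj
      rw [hg c]
      refine h c hc fun j hjn => ?_
      rw [← hf c j]; exact hj j hjn)
  refine ⟨κ, hκ, fun c δ hδ hc i hi => ?_⟩
  have := hK c δ hδ (fun j hj => by
    have e : ∑ i ∈ range a, c i * (sg (s j) * x j i) = _ := hf c j
    rw [e]; exact hc j hj) i hi
  rwa [hg c] at this

/-- The window statement: a nonzero functional on the `k` rows `p, p + 1, …` of the block `B`
(`m` columns) whose first coordinate has weakly the sign `ε` and which is weakly compatible with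
`t` has a last coordinate of sign `ε'`. -/
def Win (B : ℕ → ℕ → ℝ) (m p : ℕ) (ε : Bool) (t : ℕ → Bool) (k : ℕ) (ε' : Bool) : Prop :=
  ∀ c : ℕ → ℝ, (∃ i < k, c i ≠ 0) → 0 ≤ sg ε * c 0 →
    (∀ j < m, 0 ≤ sg (t j) * ∑ i ∈ range k, c i * B j (p + i)) → 0 < sg ε' * c (k - 1)

/-- Quantitative form of a window statement. -/
theorem win_quant (B : ℕ → ℕ → ℝ) (m p : ℕ) (ε : Bool) (t : ℕ → Bool) (k : ℕ) (ε' : Bool)
    (hk : 1 ≤ k) (h : Win B m p ε t k ε') :
    ∃ κ : ℝ, 0 < κ ∧ ∀ (c : ℕ → ℝ) (δ : ℝ), 0 ≤ δ → -δ ≤ sg ε * c 0 →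
      (∀ j < m, -δ ≤ sg (t j) * ∑ i ∈ range k, c i * B j (p + i)) →
      ∀ i < k, κ * |c i| ≤ max δ (sg ε' * c (k - 1)) := by
  have hg : ∀ c : ℕ → ℝ, ∑ i ∈ range k, c i * (if i = k - 1 then sg ε' else 0)
      = sg ε' * c (k - 1) := by
    intro c
    rw [sum_eq_single_of_mem (k - 1) (mem_range.2 (by omega))]
    · rw [if_pos rfl]; ring
    · intro i _ hi; rw [if_neg hi, mul_zero]
  have hg0 : ∀ c : ℕ → ℝ, ∑ i ∈ range k, c i * (if i = 0 then sg ε else 0) = sg ε * c 0 := by
    intro c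
    rw [sum_eq_single_of_mem 0 (mem_range.2 (by omega))]
    · rw [if_pos rfl]; ring
    · intro i _ hi; rw [if_neg hi, mul_zero]
  have hf : ∀ (c : ℕ → ℝ) (j : ℕ), ∑ i ∈ range k, c i * (sg (t j) * B j (p + i))
      = sg (t j) * ∑ i ∈ range k, c i * B j (p + i) := by
    intro c j
    rw [mul_sum]
    exact sum_congr rfl fun i _ => by ring
  let f : ℕ → ℕ → ℝ := fun j i => match j with
    | 0 => if i = 0 then sg ε else 0
    | j + 1 => sg (t j) * B j (p + i)
  obtain ⟨κ, hκ, hK⟩ := quant k (m + 1) f (fun i => if i = k - 1 then sg ε' else 0) (by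
      intro c hc hj
      rw [hg c]
      refine h c hc ?_ fun j hjm => ?_
      · have := hj 0 (by omega)
        have e : ∑ i ∈ range k, c i * f 0 i = sg ε * c 0 := hg0 c
        rwa [e] at this
      · have := hj (j + 1) (by omega)
        have e : ∑ i ∈ range k, c i * f (j + 1) i = _ := hf c j
        rwa [e] at this)
  refine ⟨κ, hκ, fun c δ hδ h0 hc i hi => ?_⟩
  have := hK c δ hδ (fun j hj => by
    rcases j with _ | j
    · have e : ∑ i ∈ range k, c i * f 0 i = sg ε * c 0 := hg0 c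
      rw [e]; exact h0
    · have e : ∑ i ∈ range k, c i * f (j + 1) i = _ := hf c j
      rw [e]; exact hc j (by omega)) i hi
  rwa [hg c] at this

theorem le_abs_sg (b : Bool) (y : ℝ) : sg b * y ≤ |y| := by
  calc sg b * y ≤ |sg b * y| := le_abs_self _
    _ = |y| := by rw [abs_mul, sg_abs, one_mul]

/-- A block appended at a large scale moves the states as its windows say. -/
theorem block_core (x : ℕ → ℕ → ℝ) (n : ℕ) (s : ℕ → Bool) (a : ℕ) (ε : Bool)
    (B : ℕ → ℕ → ℝ) (m : ℕ) (t : ℕ → Bool) (k : ℕ) (ε' : Bool) (ha : 1 ≤ a) (hk : 1 ≤ k)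
    (h1 : St x n s a ε) (h2 : Win B m (a - 1) ε t k ε') :
    ∃ M0 : ℝ, 1 ≤ M0 ∧ ∀ M : ℝ, M0 ≤ M → ∀ x' : ℕ → ℕ → ℝ, (∀ j < n, x' j = x j) →
      (∀ j < m, ∀ i, x' (n + j) i = M ^ i * B j i) → ∀ s' : ℕ → Bool, (∀ j < n, s' j = s j) →
      (∀ j < m, s' (n + j) = t j) → St x' (n + m) s' (a + k - 1) ε' := by
  classical
  obtain ⟨κ1, hκ1, q1⟩ := st_quant x n s a ε ha h1
  obtain ⟨κ2, hκ2, q2⟩ := win_quant B m (a - 1) ε t k ε' hk h2
  obtain ⟨a', rfl⟩ : ∃ a', a = a' + 1 := ⟨a - 1, by omega⟩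
  obtain ⟨k', rfl⟩ : ∃ k', k = k' + 1 := ⟨k - 1, by omega⟩
  simp only [Nat.add_sub_cancel] at q1 q2
  set D : ℝ := ∑ j ∈ range n, ∑ i ∈ range (a' + k' + 1), |x j i| with hD
  set C : ℝ := ∑ j ∈ range m, ∑ i ∈ range (a' + k' + 1), |B j i| with hC
  have hD0 : 0 ≤ D := sum_nonneg fun _ _ => sum_nonneg fun _ _ => abs_nonneg _
  have hC0 : 0 ≤ C := sum_nonneg fun _ _ => sum_nonneg fun _ _ => abs_nonneg _
  have hDb : ∀ j < n, ∀ i < a' + k' + 1, |x j i| ≤ D := fun j hj i hi =>
    le_trans (single_le_sum (f := fun i => |x j i|) (fun _ _ => abs_nonneg _) (mem_range.2 hi))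
      (single_le_sum (f := fun j => ∑ i ∈ range (a' + k' + 1), |x j i|)
        (fun _ _ => sum_nonneg fun _ _ => abs_nonneg _) (mem_range.2 hj))
  have hCb : ∀ j < m, ∀ i < a' + k' + 1, |B j i| ≤ C := fun j hj i hi =>
    le_trans (single_le_sum (f := fun i => |B j i|) (fun _ _ => abs_nonneg _) (mem_range.2 hi))
      (single_le_sum (f := fun j => ∑ i ∈ range (a' + k' + 1), |B j i|)
        (fun _ _ => sum_nonneg fun _ _ => abs_nonneg _) (mem_range.2 hj))
  have hκ : 0 < κ1 * κ2 := mul_pos hκ1 hκ2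
  set kr : ℝ := (k' : ℝ) + 1 with hkr
  set ar : ℝ := (a' : ℝ) + 1 with har
  have hkr0 : 0 ≤ kr := by positivity
  have har0 : 0 ≤ ar := by positivity
  have hT : 0 ≤ kr * D + (kr * D + 1) * (ar * C) := by positivity
  refine ⟨1 + (kr * D + (kr * D + 1) * (ar * C)) / (κ1 * κ2), ?_, ?_⟩
  · have := div_nonneg hT hκ.le; linarith
  intro M hM x' hx hB s' hs ht
  have hM1 : 1 ≤ M := by have := div_nonneg hT hκ.le; linarith
  have hM0 : 0 < M := by linarith
  have hMκ : κ1 * κ2 + (kr * D + (kr * D + 1) * (ar * C)) ≤ κ1 * κ2 * M := by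
    have e := mul_le_mul_of_nonneg_left hM hκ.le
    have e2 : κ1 * κ2 * (1 + (kr * D + (kr * D + 1) * (ar * C)) / (κ1 * κ2))
        = κ1 * κ2 + (kr * D + (kr * D + 1) * (ar * C)) := by
      field_simp
    linarith
  have hα : kr * D < κ1 * κ2 * M := by
    have : 0 ≤ (kr * D + 1) * (ar * C) := by positivity
    linarith
  have hβ : (kr * D + 1) * (ar * C) < κ1 * κ2 * M := by
    have : 0 ≤ kr * D := by positivity
    linarith
  have hidx : a' + 1 + (k' + 1) - 1 = a' + 1 + k' := by omega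
  rw [hidx]
  intro c hc hcomp
  rw [show a' + 1 + k' - 1 = a' + k' by omega]
  let w : ℕ → ℝ := fun i => c (a' + i) * M ^ i
  obtain ⟨i1, hi1, hW⟩ := exists_max_image (range (k' + 1)) (fun i => |w i|)
    ⟨0, mem_range.2 (by omega)⟩
  obtain ⟨i0, hi0, hA⟩ := exists_max_image (range (a' + 1)) (fun i => |c i|)
    ⟨0, mem_range.2 (by omega)⟩
  set W := |w i1| with hWd
  set A := |c i0| with hAd
  have hW0 : 0 ≤ W := abs_nonneg _
  have hA0 : 0 ≤ A := abs_nonneg _
  have hWb : ∀ i < k' + 1, |w i| ≤ W := fun i hi => hW i (mem_range.2 hi)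
  have hAb : ∀ i < a' + 1, |c i| ≤ A := fun i hi => hA i (mem_range.2 hi)
  have hcw : ∀ i < k' + 1, |c (a' + i)| * M ^ i ≤ W := by
    intro i hi
    have := hWb i hi
    rwa [show |w i| = |c (a' + i)| * M ^ i by
      simp only [w]; rw [abs_mul, abs_of_pos (pow_pos hM0 i)]] at this
  have hcM : ∀ i < k', |c (a' + 1 + i)| ≤ W / M := by
    intro i hi
    rw [le_div_iff₀ hM0]
    have h3 := hcw (i + 1) (by omega)
    rw [show a' + (i + 1) = a' + 1 + i by omega] at h3
    refine le_trans (mul_le_mul_of_nonneg_left ?_ (abs_nonneg _)) h3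
    calc M = M ^ 1 := (pow_one M).symm
      _ ≤ M ^ (i + 1) := pow_le_pow_right₀ hM1 (by omega)
  by_contra hcon
  push Not at hcon
  have hlast : sg ε' * w k' ≤ 0 := by
    have : sg ε' * w k' = (sg ε' * c (a' + k')) * M ^ k' := by simp only [w]; ring
    rw [this]
    exact mul_nonpos_of_nonpos_of_nonneg hcon (pow_pos hM0 _).le
  -- the old inequalities
  have hδ1 : 0 ≤ kr * D * W / M := by positivity
  have r1 := q1 c (kr * D * W / M) hδ1 (by
    intro j hj
    have e := hcomp j (by omega)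
    rw [hx j hj, hs j hj, sum_range_add, mul_add] at e
    have e2 : |sg (s j) * ∑ i ∈ range k', c (a' + 1 + i) * x j (a' + 1 + i)|
        ≤ kr * D * W / M := by
      rw [abs_mul, sg_abs, one_mul]
      calc |∑ i ∈ range k', c (a' + 1 + i) * x j (a' + 1 + i)|
          ≤ ∑ i ∈ range k', |c (a' + 1 + i) * x j (a' + 1 + i)| := abs_sum_le_sum_abs _ _
        _ ≤ ∑ i ∈ range k', W / M * D := by
            refine sum_le_sum fun i hi => ?_
            have hi' := mem_range.1 hi
            rw [abs_mul]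
            exact mul_le_mul (hcM i hi') (hDb j hj _ (by omega)) (abs_nonneg _)
              (div_nonneg hW0 hM0.le)
        _ = k' * (W / M * D) := by rw [sum_const, card_range, nsmul_eq_mul]
        _ ≤ kr * (W / M * D) := by
            refine mul_le_mul_of_nonneg_right (by simp [hkr]) ?_
            positivity
        _ = kr * D * W / M := by ring
    have e3 := (abs_le.1 e2).2
    linarith)
  -- the new inequalities
  have hδ' : 0 ≤ ar * C * A / M := by positivity
  have r2 := q2 w (max (ar * C * A / M) (-(sg ε * w 0)))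
    (le_trans hδ' (le_max_left _ _)) (by
      have := le_max_right (ar * C * A / M) (-(sg ε * w 0)); linarith) (by
    intro j hj
    have e := hcomp (n + j) (by omega)
    rw [ht j hj, show a' + 1 + k' = a' + (k' + 1) by omega, sum_range_add] at e
    have e1 : ∑ i ∈ range (k' + 1), c (a' + i) * x' (n + j) (a' + i)
        = M ^ a' * ∑ i ∈ range (k' + 1), w i * B j (a' + i) := by
      rw [mul_sum]
      refine sum_congr rfl fun i _ => ?_
      rw [hB j hj]
      simp only [w]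
      rw [pow_add]; ring
    have e2 : |∑ i ∈ range a', c i * x' (n + j) i| ≤ M ^ a' * (ar * C * A / M) := by
      calc |∑ i ∈ range a', c i * x' (n + j) i|
          ≤ ∑ i ∈ range a', |c i * x' (n + j) i| := abs_sum_le_sum_abs _ _
        _ ≤ ∑ i ∈ range a', A * (M ^ a' / M * C) := by
            refine sum_le_sum fun i hi => ?_
            have hi' := mem_range.1 hi
            rw [hB j hj, abs_mul, abs_mul, abs_of_pos (pow_pos hM0 i)]
            refine mul_le_mul (hAb i (by omega)) ?_ (by positivity) hA0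
            refine mul_le_mul ?_ (hCb j hj i (by omega)) (abs_nonneg _) (by positivity)
            rw [le_div_iff₀ hM0, ← pow_succ]
            exact pow_le_pow_right₀ hM1 (by omega)
        _ = a' * (A * (M ^ a' / M * C)) := by rw [sum_const, card_range, nsmul_eq_mul]
        _ ≤ ar * (A * (M ^ a' / M * C)) := by
            refine mul_le_mul_of_nonneg_right (by simp [har]) ?_
            positivity
        _ = M ^ a' * (ar * C * A / M) := by ring
    rw [e1, mul_add] at e
    have e3 : sg (t j) * ∑ i ∈ range a', c i * x' (n + j) i ≤ M ^ a' * (ar * C * A / M) :=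
      le_trans (le_abs_sg _ _) e2
    have hMa : 0 < M ^ a' := pow_pos hM0 _
    have e4 : 0 ≤ M ^ a' * (ar * C * A / M + sg (t j) * ∑ i ∈ range (k' + 1),
        w i * B j (a' + i)) := by
      calc (0 : ℝ) ≤ sg (t j) * ∑ i ∈ range a', c i * x' (n + j) i
            + sg (t j) * (M ^ a' * ∑ i ∈ range (k' + 1), w i * B j (a' + i)) := e
        _ ≤ M ^ a' * (ar * C * A / M)
            + sg (t j) * (M ^ a' * ∑ i ∈ range (k' + 1), w i * B j (a' + i)) := by linarith
        _ = _ := by ring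
    have e5 := nonneg_of_mul_nonneg_right e4 hMa
    have e6 := le_max_left (ar * C * A / M) (-(sg ε * w 0))
    linarith)
  have hw0 : w 0 = c a' := by simp [w]
  have r3 : κ2 * W ≤ max (ar * C * A / M) (-(sg ε * w 0)) := by
    have h3 := r2 i1 (mem_range.1 hi1)
    rw [max_eq_left (le_trans hlast (le_trans hδ' (le_max_left _ _)))] at h3
    exact h3
  -- the easy contradiction
  have hA : κ2 * W ≤ ar * C * A / M → False := by
    intro h3
    have h4 := r1 i0 (mem_range.1 hi0)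
    have h5 : sg ε * c a' ≤ W := by
      have := le_abs_sg ε (c a')
      have h6 := hWb 0 (by omega)
      rw [hw0] at h6
      linarith
    have h6 : kr * D * W / M ≤ kr * D * W := by
      rw [div_le_iff₀ hM0]
      have : 0 ≤ kr * D * W := by positivity
      nlinarith
    have h7 : κ1 * A ≤ (kr * D + 1) * W := by
      refine le_trans h4 (max_le ?_ ?_)
      · nlinarith
      · have : 0 ≤ kr * D * W := by positivity
        nlinarith
    have h8 : κ2 * W * M ≤ ar * C * A := by rwa [le_div_iff₀ hM0] at h3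
    have h9 : κ1 * κ2 * M * A ≤ (kr * D + 1) * (ar * C) * A := by
      calc κ1 * κ2 * M * A = (κ1 * A) * (κ2 * M) := by ring
        _ ≤ ((kr * D + 1) * W) * (κ2 * M) :=
            mul_le_mul_of_nonneg_right h7 (by positivity)
        _ = (kr * D + 1) * (κ2 * W * M) := by ring
        _ ≤ (kr * D + 1) * (ar * C * A) := mul_le_mul_of_nonneg_left h8 (by positivity)
        _ = _ := by ring
    have hA00 : A = 0 := by
      by_contra hne
      have : 0 < A := lt_of_le_of_ne hA0 (Ne.symm hne)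
      have := mul_lt_mul_of_pos_right hβ this
      linarith
    have hW00 : W = 0 := by
      rw [hA00, mul_zero] at h8
      have : κ2 * W * M ≤ 0 := h8
      by_contra hne
      have hWp : 0 < W := lt_of_le_of_ne hW0 (Ne.symm hne)
      have := mul_pos (mul_pos hκ2 hWp) hM0
      linarith
    obtain ⟨i, hi, hci⟩ := hc
    apply hci
    by_cases hia : i < a' + 1
    · have := hAb i hia
      rw [hA00] at this
      exact abs_eq_zero.1 (le_antisymm this (abs_nonneg _))
    · have h10 := hcw (i - a') (by omega)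
      rw [show a' + (i - a') = i by omega, hW00] at h10
      have h11 : |c i| * M ^ (i - a') = 0 := le_antisymm h10 (by positivity)
      rcases mul_eq_zero.1 h11 with h12 | h12
      · exact abs_eq_zero.1 h12
      · exact absurd h12 (pow_pos hM0 _).ne'
  rcases le_max_iff.1 r3 with h3 | h3
  · exact hA h3
  · rcases eq_or_lt_of_le hW0 with h4 | h4
    · exact hA (by rw [← h4, mul_zero]; exact hδ')
    · have h5 := r1 a' (by omega)
      rw [hw0] at h3
      have h6 : sg ε * c a' < 0 := by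
        have := mul_pos hκ2 h4; linarith
      have h7 : κ1 * |c a'| ≤ kr * D * W / M := by
        rcases le_max_iff.1 h5 with h8 | h8
        · exact h8
        · have : 0 ≤ κ1 * |c a'| := mul_nonneg hκ1.le (abs_nonneg _)
          linarith
      have h8 : κ2 * W ≤ |c a'| := by
        have h9 : -(sg ε * c a') ≤ |c a'| := by
          have := neg_abs_le (sg ε * c a')
          rw [abs_mul, sg_abs, one_mul] at this
          linarith
        linarith
      have h9 : κ1 * (κ2 * W) ≤ kr * D * W / M :=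
        le_trans (mul_le_mul_of_nonneg_left h8 hκ1.le) h7
      rw [le_div_iff₀ hM0] at h9
      have h10 := mul_lt_mul_of_pos_right hα h4
      nlinarith

theorem st_congr {x : ℕ → ℕ → ℝ} {n : ℕ} {s s' : ℕ → Bool} {a : ℕ} {ε : Bool}
    (h : ∀ j < n, s' j = s j) (hs : St x n s a ε) : St x n s' a ε := by
  intro c hc hj
  exact hs c hc fun j hjn => by rw [← h j hjn]; exact hj j hjn

theorem win_congr {B : ℕ → ℕ → ℝ} {m p : ℕ} {ε : Bool} {t t' : ℕ → Bool} {k : ℕ} {ε' : Bool}
    (h : ∀ j < m, t' j = t j) (hs : Win B m p ε t k ε') : Win B m p ε t' k ε' := by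
  intro c hc h0 hj
  exact hs c hc h0 fun j hjn => by rw [← h j hjn]; exact hj j hjn

/-- All large scales work for all states and all windows. -/
theorem exists_block_all (x : ℕ → ℕ → ℝ) (n N m : ℕ) (B : ℕ → ℕ → ℝ) :
    ∃ M0 : ℝ, 1 ≤ M0 ∧ ∀ M : ℝ, M0 ≤ M → ∀ x' : ℕ → ℕ → ℝ, (∀ j < n, x' j = x j) →
      (∀ j < m, ∀ i, x' (n + j) i = M ^ i * B j i) →
      ∀ (s : ℕ → Bool) (a : ℕ) (ε : Bool) (k : ℕ) (ε' : Bool), 1 ≤ a → a ≤ N → 1 ≤ k → k ≤ N →
        St x n s a ε → Win B m (a - 1) ε (fun j => s (n + j)) k ε' →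
        St x' (n + m) s (a + k - 1) ε' := by
  classical
  let pn : (Fin n → Bool) → ℕ → Bool := fun t j => if h : j < n then t ⟨j, h⟩ else true
  let pm : (Fin m → Bool) → ℕ → Bool := fun t j => if h : j < m then t ⟨j, h⟩ else true
  have hall : ∀ p : (Fin n → Bool) × (Fin m → Bool) × Fin (N + 1) × Bool × Fin (N + 1) × Bool,
      ∃ M0 : ℝ, 1 ≤ M0 ∧ (1 ≤ (p.2.2.1 : ℕ) → 1 ≤ (p.2.2.2.2.1 : ℕ) →
        St x n (pn p.1) p.2.2.1 p.2.2.2.1 →
        Win B m ((p.2.2.1 : ℕ) - 1) p.2.2.2.1 (pm p.2.1) p.2.2.2.2.1 p.2.2.2.2.2 →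
        ∀ M : ℝ, M0 ≤ M → ∀ x' : ℕ → ℕ → ℝ, (∀ j < n, x' j = x j) →
        (∀ j < m, ∀ i, x' (n + j) i = M ^ i * B j i) → ∀ s' : ℕ → Bool,
        (∀ j < n, s' j = pn p.1 j) → (∀ j < m, s' (n + j) = pm p.2.1 j) →
        St x' (n + m) s' (p.2.2.1 + p.2.2.2.2.1 - 1) p.2.2.2.2.2) := by
    intro p
    by_cases hp : 1 ≤ (p.2.2.1 : ℕ) ∧ 1 ≤ (p.2.2.2.2.1 : ℕ) ∧
        St x n (pn p.1) p.2.2.1 p.2.2.2.1 ∧
        Win B m ((p.2.2.1 : ℕ) - 1) p.2.2.2.1 (pm p.2.1) p.2.2.2.2.1 p.2.2.2.2.2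
    · obtain ⟨M0, hM0, h⟩ := block_core x n (pn p.1) p.2.2.1 p.2.2.2.1 B m (pm p.2.1)
        p.2.2.2.2.1 p.2.2.2.2.2 hp.1 hp.2.1 hp.2.2.1 hp.2.2.2
      exact ⟨M0, hM0, fun _ _ _ _ => h⟩
    · exact ⟨1, le_refl _, fun h1 h2 h3 h4 => absurd ⟨h1, h2, h3, h4⟩ hp⟩
  choose M0 hM1 hM0 using hall
  have hS : 0 ≤ ∑ p, M0 p := sum_nonneg fun q _ => le_trans zero_le_one (hM1 q)
  refine ⟨1 + ∑ p, M0 p, by linarith, ?_⟩
  intro M hMM x' hx hB s a ε k ε' ha haN hk hkN hSt hWin
  have hMp : ∀ p, M0 p ≤ M := by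
    intro p
    have : M0 p ≤ ∑ q, M0 q :=
      single_le_sum (f := M0) (fun q _ => le_trans zero_le_one (hM1 q)) (mem_univ p)
    linarith
  let p : (Fin n → Bool) × (Fin m → Bool) × Fin (N + 1) × Bool × Fin (N + 1) × Bool :=
    (fun j => s j, fun j => s (n + j), ⟨a, by omega⟩, ε, ⟨k, by omega⟩, ε')
  have e1 : ∀ j < n, pn p.1 j = s j := by intro j hj; simp [pn, p, hj]
  have e2 : ∀ j < m, pm p.2.1 j = s (n + j) := by intro j hj; simp [pm, p, hj]
  exact hM0 p ha hk (st_congr e1 hSt) (win_congr e2 hWin) M (hMp p) x' hx hB s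
    (fun j hj => (e1 j hj).symm) (fun j hj => (e2 j hj).symm)

/-- One scale which works for all states and all windows. -/
theorem exists_block (x : ℕ → ℕ → ℝ) (n N m : ℕ) (B : ℕ → ℕ → ℝ) :
    ∃ M : ℝ, 0 < M ∧ ∀ x' : ℕ → ℕ → ℝ, (∀ j < n, x' j = x j) →
      (∀ j < m, ∀ i, x' (n + j) i = M ^ i * B j i) →
      ∀ (s : ℕ → Bool) (a : ℕ) (ε : Bool) (k : ℕ) (ε' : Bool), 1 ≤ a → a ≤ N → 1 ≤ k → k ≤ N →
        St x n s a ε → Win B m (a - 1) ε (fun j => s (n + j)) k ε' →
        St x' (n + m) s (a + k - 1) ε' := by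
  obtain ⟨M0, h1, h⟩ := exists_block_all x n N m B
  exact ⟨M0, lt_of_lt_of_le one_pos h1, h M0 (le_refl _)⟩

/-- Levels never decrease. -/
theorem st_mono {x x' : ℕ → ℕ → ℝ} {n m : ℕ} {s : ℕ → Bool} {a : ℕ} {ε : Bool}
    (hx : ∀ j < n, x' j = x j) (h : St x n s a ε) : St x' (n + m) s a ε := by
  intro c hc hj
  refine h c hc fun j hjn => ?_
  have := hj j (by omega)
  rwa [hx j hjn] at this

/-- A certificate for a window statement: a positive combination of the (signed) columns of the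
window and of the vector `(1, 0, …)` which is a multiple of the last unit vector, together with
the fact that these vectors span. -/
theorem win_of_cert (B : ℕ → ℕ → ℝ) (m p : ℕ) (ε : Bool) (t : ℕ → Bool) (k : ℕ) (ε' : Bool)
    (lam : ℕ → ℝ) (lam0 K : ℝ) (hl : ∀ j < m, 0 < lam j) (hl0 : 0 < lam0) (hK : 0 < K)
    (hk : 1 ≤ k)
    (hcert : ∀ i < k, lam0 * sg ε * (if i = 0 then 1 else 0)
      + ∑ j ∈ range m, lam j * (sg (t j) * B j (p + i)) = if i = k - 1 then sg ε' * K else 0)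
    (hspan : ∀ c : ℕ → ℝ, c 0 = 0 → (∀ j < m, ∑ i ∈ range k, c i * B j (p + i) = 0) →
      ∀ i < k, c i = 0) : Win B m p ε t k ε' := by
  intro c hc h0 hj
  have key : K * (sg ε' * c (k - 1)) = lam0 * (sg ε * c 0)
      + ∑ j ∈ range m, lam j * (sg (t j) * ∑ i ∈ range k, c i * B j (p + i)) := by
    have e1 : ∑ i ∈ range k, c i * (if i = k - 1 then sg ε' * K else 0)
        = K * (sg ε' * c (k - 1)) := by
      rw [sum_eq_single_of_mem (k - 1) (mem_range.2 (by omega))]
      · rw [if_pos rfl]; ring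
      · intro i _ hi; rw [if_neg hi, mul_zero]
    rw [← e1]
    have e2 : ∑ i ∈ range k, c i * (if i = k - 1 then sg ε' * K else 0)
        = ∑ i ∈ range k, c i * (lam0 * sg ε * (if i = 0 then 1 else 0)
          + ∑ j ∈ range m, lam j * (sg (t j) * B j (p + i))) :=
      sum_congr rfl fun i hi => by rw [hcert i (mem_range.1 hi)]
    rw [e2]
    have e3 : ∀ i ∈ range k, c i * (lam0 * sg ε * (if i = 0 then 1 else 0)
          + ∑ j ∈ range m, lam j * (sg (t j) * B j (p + i)))
        = c i * (lam0 * sg ε * (if i = 0 then 1 else 0))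
          + ∑ j ∈ range m, lam j * (sg (t j) * (c i * B j (p + i))) := by
      intro i _
      rw [mul_add, mul_sum]
      congr 1
      exact sum_congr rfl fun j _ => by ring
    rw [sum_congr rfl e3, sum_add_distrib]
    congr 1
    · rw [sum_eq_single_of_mem 0 (mem_range.2 (by omega))]
      · rw [if_pos rfl]; ring
      · intro i _ hi; rw [if_neg hi]; ring
    · rw [sum_comm]
      refine sum_congr rfl fun j _ => ?_
      rw [mul_sum, mul_sum]
  have hn1 : 0 ≤ lam0 * (sg ε * c 0) := mul_nonneg hl0.le h0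
  have hn2 : ∀ j ∈ range m, 0 ≤ lam j * (sg (t j) * ∑ i ∈ range k, c i * B j (p + i)) :=
    fun j hjm => mul_nonneg (hl j (mem_range.1 hjm)).le (hj j (mem_range.1 hjm))
  have hn : 0 ≤ K * (sg ε' * c (k - 1)) := by
    rw [key]; exact add_nonneg hn1 (sum_nonneg hn2)
  rcases eq_or_lt_of_le hn with h1 | h1
  · exfalso
    rw [← h1] at key
    have hs0 := sum_nonneg hn2
    have e1 : lam0 * (sg ε * c 0) = 0 := by linarith
    have e2 : ∑ j ∈ range m, lam j * (sg (t j) * ∑ i ∈ range k, c i * B j (p + i)) = 0 := by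
      linarith
    have hsg : ∀ b : Bool, sg b ≠ 0 := by intro b; cases b <;> simp [sg]
    have hc0 : c 0 = 0 := by
      rcases mul_eq_zero.1 e1 with h | h
      · exact absurd h hl0.ne'
      · exact (mul_eq_zero.1 h).resolve_left (hsg _)
    have hz : ∀ j < m, ∑ i ∈ range k, c i * B j (p + i) = 0 := by
      intro j hjm
      have := (sum_eq_zero_iff_of_nonneg hn2).1 e2 j (mem_range.2 hjm)
      rcases mul_eq_zero.1 this with h | h
      · exact absurd h (hl j hjm).ne'
      · exact (mul_eq_zero.1 h).resolve_left (hsg _)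
    obtain ⟨i, hi, hci⟩ := hc
    exact hci (hspan c hc0 hz i hi)
  · exact (mul_pos_iff.1 h1).resolve_right (fun h => absurd h.1 (not_lt.2 hK.le)) |>.2

end Pool.Agent.H77.Nu
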