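import Pool.Agent.H77.Nu.Chain

/-!
From the windows of a block to a step of the chain (MP_1e71f9_co).
-/

set_option autoImplicit false

namespace Pool.Agent.H77.Nu

open Finset Pool.Agent.H67.Nu

theorem sg_ne (b : Bool) : sg b ≠ 0 := by cases b <;> simp [sg]

/-- The window which does nothing. -/
theorem win_one (B : ℕ → ℕ → ℝ) (m p : ℕ) (ε : Bool) (t : ℕ → Bool) : Win B m p ε t 1 ε := by
  intro c hc h0 _
  obtain ⟨i, hi, hci⟩ := hc
  have hi0 : i = 0 := by omega
  subst hi0
  exact lt_of_le_of_ne h0 (Ne.symm (mul_ne_zero (sg_ne ε) hci))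

/-- A window statement depends only on the rows of the window. -/
theorem win_rows {B B' : ℕ → ℕ → ℝ} {m p p' : ℕ} {ε : Bool} {t : ℕ → Bool} {k : ℕ} {ε' : Bool}
    (h : Win B m p ε t k ε') (hB : ∀ j < m, ∀ i < k, B' j (p' + i) = B j (p + i)) :
    Win B' m p' ε t k ε' := by
  intro c hc h0 hj
  refine h c hc h0 fun j hjm => ?_
  have := hj j hjm
  rwa [sum_congr rfl fun i hi => by rw [hB j hjm i (mem_range.1 hi)]] at this

/-- Changing signs of rows. -/
theorem win_gauge {B : ℕ → ℕ → ℝ} {m p : ℕ} {ε : Bool} {t : ℕ → Bool} {k : ℕ} {ε' : Bool}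
    (g : ℕ → Bool) (hk : 1 ≤ k) (h : Win B m p ε t k ε') :
    Win (fun j i => sg (g i) * B j i) m p (ε == g p) t k (ε' == g (p + k - 1)) := by
  intro c hc h0 hj
  have hsq : ∀ b : Bool, sg b * sg b = 1 := fun b => by cases b <;> simp [sg]
  have hxn : ∀ a b : Bool, sg (a == b) = sg a * sg b := fun a b => by
    cases a <;> cases b <;> simp [sg]
  have key := h (fun i => sg (g (p + i)) * c i) (by
    obtain ⟨i, hi, hci⟩ := hc
    exact ⟨i, hi, mul_ne_zero (sg_ne _) hci⟩) (by
    rw [hxn] at h0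
    simpa [mul_assoc] using h0) (by
    intro j hjm
    have := hj j hjm
    have e : ∑ i ∈ range k, sg (g (p + i)) * c i * B j (p + i)
        = ∑ i ∈ range k, c i * (sg (g (p + i)) * B j (p + i)) :=
      sum_congr rfl fun i _ => by ring
    rw [e]; exact this)
  rw [hxn]
  have e : p + k - 1 = p + (k - 1) := by omega
  rw [e]
  calc (0 : ℝ) < sg ε' * (sg (g (p + (k - 1))) * c (k - 1)) := key
    _ = _ := by ring

/-- The level after the block and one column with pattern `gz` (relative to the pattern of the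
last column before the block). -/
def nx (ω : ℤ → Bool → (ℕ → Bool) → ℕ × Bool) (gz : ℤ → Bool) (P : ℤ) (b : Bool)
    (t : ℕ → Bool) (y : Bool) : ℤ :=
  if y = (gz (P + (ω P b t).1 - 1) == (ω P b t).2) then P + (ω P b t).1 - 1
  else P + (ω P b t).1

/-- The combinatorial condition on a block: it sends profiles in `X` to profiles in `Y`. -/
def Check (m : ℕ) (ω : ℤ → Bool → (ℕ → Bool) → ℕ × Bool) (gz : ℤ → Bool) (ρ : ℤ)
    (X Y : ℤ → ℤ → ℤ → Prop) : Prop :=
  ∀ P Q T, X P Q T → ∀ (b : Bool) (t : ℕ → Bool) (y : Bool), ∃ P' Q' T', Y P' Q' T' ∧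
    P' + ρ ≤ nx ω gz P b t y ∧
    (Q' + ρ ≤ nx ω gz Q b t y ∨ Q' + ρ ≤ nx ω gz T (!b) t y ∨
      ∃ j < m, Q' + ρ ≤ nx ω gz P b (flip t j) y) ∧
    T' + ρ ≤ nx ω gz P b t (!y)

theorem exists_blk (x : ℕ → ℕ → ℝ) (n K m : ℕ) (B : ℕ → ℕ → ℝ) :
    ∃ x' : ℕ → ℕ → ℝ, ∀ (s : ℕ → Bool) (a : ℕ) (ε : Bool) (k : ℕ) (ε' : Bool), 1 ≤ a → 1 ≤ k →
      k ≤ K → St x n s a ε → Win B m (a - 1) ε (fun j => s (n + j)) k ε' →
      St x' (n + m) s (a + k - 1) ε' := by
  obtain ⟨M, -, hM⟩ := exists_block x n (n + K) m B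
  refine ⟨fun j i => if j < n then x j i else M ^ i * B (j - n) i, ?_⟩
  intro s a ε k ε' ha hk hkK hst hw
  refine hM _ (fun j hj => ?_) (fun j hj i => ?_) s a ε k ε' ha ?_ hk (by omega) hst hw
  · funext i; simp [hj]
  · simp
  · have := st_le hst; omega

theorem block_ex {m : ℕ} {Bz : ℕ → ℤ → ℝ} {ω : ℤ → Bool → (ℕ → Bool) → ℕ × Bool} {gz : ℤ → Bool}
    {K : ℕ} {ρ R : ℤ} {X Y : ℤ → ℤ → ℤ → Prop}
    (h1 : ∀ P b t, 1 ≤ (ω P b t).1 ∧ (ω P b t).1 ≤ K)
    (hw : ∀ P b t, Win (fun j i => Bz j (P + i)) m 0 b t (ω P b t).1 (ω P b t).2)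
    (hlow : ∀ P b t, P + R ≤ 0 → (ω P b t).1 = 1)
    (hc : Check m ω gz ρ X Y) {N : ℕ} (h : Ex N R X) : Ex (N + (m + 1)) (R + ρ) Y := by
  obtain ⟨x, e, h⟩ := h
  obtain ⟨x1, hx1⟩ := exists_blk x (N + 1) K m fun j i => sg (e i) * Bz j ((i : ℤ) + 1 - R)
  let e' : ℕ → Bool := fun i => (e i == gz ((i : ℤ) + 1 - R))
  obtain ⟨x2, -, hx2⟩ := exists_col x1 (N + 1 + m) e'
  -- the basic move
  have key : ∀ (u : ℕ → Bool) (b : Bool) (P : ℤ) (t : ℕ → Bool) (y : Bool) (A : ℤ),
      St x (N + 1) u (P + R).toNat (b == e ((P + R).toNat - 1)) →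
      (∀ j < m, u (N + 1 + j) = t j) → u (N + 1 + m) = y → A + ρ ≤ nx ω gz P b t y →
      St x2 (N + (m + 1) + 1) u (A + (R + ρ)).toNat (y == e' ((A + (R + ρ)).toNat - 1)) := by
    intro u b P t y A hst ht hy hA
    have hn : N + (m + 1) + 1 = N + 1 + m + 1 := by ring
    rw [hn]
    rcases lt_or_ge 0 (P + R) with hpos | hneg
    · -- the main case
      obtain ⟨a, ha⟩ : ∃ a : ℕ, (a : ℤ) = P + R := ⟨(P + R).toNat, by omega⟩
      have hat : (P + R).toNat = a := by omega
      rw [hat] at hst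
      have hk1 := (h1 P b t).1
      have hW := hw P b t
      set k := (ω P b t).1 with hk
      set σ := (ω P b t).2 with hσ
      have hW1 : Win (fun j i => Bz j ((i : ℤ) + 1 - R)) m (a - 1) b t k σ := by
        refine win_rows hW fun j _ i _ => ?_
        have : ((a - 1 + i : ℕ) : ℤ) + 1 - R = P + ((0 + i : ℕ) : ℤ) := by
          push_cast [show 1 ≤ a by omega]; omega
        simp only [this]
      have hW2 := win_gauge e hk1 hW1
      have hW3 := win_congr (t' := fun j => u (N + 1 + j)) (fun j hj => ht j hj) hW2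
      have hst1 := hx1 u a _ k _ (by omega) hk1 (h1 P b t).2 hst hW3
      have e1 : a - 1 + k - 1 = a + k - 1 - 1 := by omega
      rw [e1] at hst1
      have hst2 := hx2 u _ _ hst1
      rw [hy] at hst2
      have hl : ((a + k - 1 - 1 : ℕ) : ℤ) + 1 - R = P + k - 1 := by omega
      -- levels
      have hnx : nx ω gz P b t y = if y = (gz (P + k - 1) == σ) then P + k - 1 else P + k := rfl
      by_cases hstay : y = (gz (P + k - 1) == σ)
      · rw [hnx, if_pos hstay] at hA
        have e2 : step e' (a + k - 1, σ == e (a + k - 1 - 1)) y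
            = (a + k - 1, σ == e (a + k - 1 - 1)) := by
          unfold step
          rw [if_pos]
          refine ⟨by simp only; omega, ?_⟩
          simp only [e', hl]
          rw [hstay]
          cases gz (P + k - 1) <;> cases σ <;> cases e (a + k - 1 - 1) <;> decide
        rw [e2] at hst2
        simp only at hst2
        have h3 : (A + (R + ρ)).toNat ≤ a + k - 1 := by omega
        rcases Nat.lt_or_ge (A + (R + ρ)).toNat (a + k - 1) with h4 | h4
        · exact st_lower hst2 h4 _
        · have h5 : (A + (R + ρ)).toNat = a + k - 1 := by omega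
          rw [h5]
          have e3 : (y == e' (a + k - 1 - 1)) = (σ == e (a + k - 1 - 1)) := by
            simp only [e', hl]
            rw [hstay]
            cases gz (P + k - 1) <;> cases σ <;> cases e (a + k - 1 - 1) <;> decide
          rw [e3]; exact hst2
      · rw [hnx, if_neg hstay] at hA
        have e2 : step e' (a + k - 1, σ == e (a + k - 1 - 1)) y
            = (a + k - 1 + 1, y == e' (a + k - 1)) := by
          unfold step
          rw [if_neg]
          rintro ⟨-, h6⟩
          apply hstay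
          simp only [e', hl] at h6
          rw [h6]
          cases gz (P + k - 1) <;> cases σ <;> cases e (a + k - 1 - 1) <;> decide
        rw [e2] at hst2
        simp only at hst2
        have h3 : (A + (R + ρ)).toNat ≤ a + k - 1 + 1 := by omega
        rcases Nat.lt_or_ge (A + (R + ρ)).toNat (a + k - 1 + 1) with h4 | h4
        · exact st_lower hst2 h4 _
        · have h5 : (A + (R + ρ)).toNat = a + k - 1 + 1 := by omega
          rw [h5]
          exact hst2
    · -- below the first row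
      have hk1 := hlow P b t (by omega)
      have hA1 : A + (R + ρ) ≤ 1 := by
        unfold nx at hA
        rw [hk1] at hA
        split_ifs at hA <;> push_cast at hA <;> omega
      rcases lt_or_ge (A + (R + ρ)) 1 with h4 | h4
      · have h5 : (A + (R + ρ)).toNat = 0 := by omega
        rw [h5]; exact st_zero _ _ _ _
      · have h5 : (A + (R + ρ)).toNat = 1 := by omega
        rw [h5]
        have hst2 := hx2 u 0 true (st_zero _ _ _ _)
        rw [hy] at hst2
        have e2 : step e' (0, true) y = (1, y == e' 0) := by simp [step]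
        rw [e2] at hst2
        exact hst2
  -- the new profiles
  refine ⟨x2, e', fun s => ?_⟩
  obtain ⟨P, Q, T, hX, hP, ⟨i, hi, hQ⟩, hT⟩ := h s
  obtain ⟨P', Q', T', hY, q1, q2, q3⟩ := hc P Q T hX (s N) (fun j => s (N + 1 + j))
    (s (N + 1 + m))
  have eN : N + (m + 1) = N + 1 + m := by ring
  refine ⟨P', Q', T', hY, ?_, ?_, ?_⟩
  · rw [show s (N + (m + 1)) = s (N + 1 + m) by rw [eN]]
    exact key s (s N) P _ _ P' hP (fun j _ => rfl) rfl q1
  · rw [show s (N + (m + 1)) = s (N + 1 + m) by rw [eN]]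
    rcases q2 with q2 | q2 | ⟨j, hj, q2⟩
    · refine ⟨i, by omega, ?_⟩
      exact key (flip s i) (s N) Q (fun j => s (N + 1 + j)) _ Q' hQ
        (fun j _ => flip_apply_ne (by omega)) (flip_apply_ne (by omega)) q2
    · refine ⟨N, by omega, ?_⟩
      exact key (flip s N) (!s N) T (fun j => s (N + 1 + j)) _ Q' hT
        (fun j _ => flip_apply_ne (by omega)) (flip_apply_ne (by omega)) q2
    · refine ⟨N + 1 + j, by omega, ?_⟩
      refine key (flip s (N + 1 + j)) (s N) P (flip (fun j => s (N + 1 + j)) j) _ Q'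
        (st_congr (fun l hl => flip_apply_ne (by omega)) hP) (fun l _ => ?_)
        (flip_apply_ne (by omega)) q2
      by_cases hlj : l = j
      · subst hlj
        rw [flip_apply_self, flip_apply_self]
      · rw [flip_apply_ne hlj, flip_apply_ne (by omega)]
  · rw [show flip s (N + (m + 1)) = flip s (N + 1 + m) by rw [eN],
      show s (N + (m + 1)) = s (N + 1 + m) by rw [eN]]
    exact key (flip s (N + 1 + m)) (s N) P (fun j => s (N + 1 + j)) _ T'
      (st_congr (fun l hl => flip_apply_ne (by omega)) hP)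
      (fun j hj => flip_apply_ne (by omega)) (flip_apply_self _ _) q3

end Pool.Agent.H77.Nu
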