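import Pool.Agent.H77.Nu.BlockStep

/-!
Checking the windows of an integer block by positive integer certificates (MP_1e71f9_co): the
parts which do not depend on the data.
-/

set_option autoImplicit false

namespace Pool.Agent.H77.Nu

open Finset Pool.Agent.H67.Nu

/-- The signed sum of `xs` with the digits of `C` in the basis `B`; the signs are the bits of
`k`. -/
def dotB (B : ℕ) : ℕ → ℕ → List ℤ → ℤ
  | _, _, [] => 0
  | k, C, x :: xs => (if k % 2 = 1 then ((C % B : ℕ) : ℤ) * x else -(((C % B : ℕ) : ℤ) * x)) +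
      dotB B (k / 2) (C / B) xs

theorem dotB_eq (B k C : ℕ) (xs : List ℤ) : dotB B k C xs =
    ∑ j ∈ range xs.length, (if k.testBit j then (1 : ℤ) else -1) *
      ((C / B ^ j % B : ℕ) : ℤ) * xs.getD j 0 := by
  induction xs generalizing k C with
  | nil => simp [dotB]
  | cons x xs ih =>
    rw [dotB, ih, List.length_cons, Finset.sum_range_succ', add_comm]
    have h1 : ∀ j, (k / 2).testBit j = k.testBit (j + 1) := fun j => by
      rw [Nat.testBit_succ]
    have h2 : ∀ j, C / B / B ^ j = C / B ^ (j + 1) := fun j => by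
      rw [Nat.div_div_eq_div_mul, pow_succ, mul_comm]
    have h3 : k.testBit 0 = decide (k % 2 = 1) := Nat.testBit_zero k
    simp only [h1, h2, List.getD_cons_succ, List.getD_cons_zero, pow_zero, Nat.div_one]
    congr 1
    rw [h3]
    by_cases h : k % 2 = 1
    · simp [h]
    · simp [h]

/-- The first `m` digits are positive. -/
def posB (B : ℕ) : ℕ → ℕ → Bool
  | 0, _ => true
  | m + 1, C => decide (0 < C % B) && posB B m (C / B)

theorem posB_spec {B m C : ℕ} (h : posB B m C = true) : ∀ j < m, 0 < C / B ^ j % B := by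
  induction m generalizing C with
  | zero => intro j hj; omega
  | succ m ih =>
    rw [posB, Bool.and_eq_true, decide_eq_true_eq] at h
    intro j hj
    rcases Nat.eq_zero_or_pos j with rfl | hj0
    · simpa using h.1
    · obtain ⟨i, rfl⟩ : ∃ i, j = i + 1 := ⟨j - 1, by omega⟩
      have := ih h.2 i (by omega)
      rwa [Nat.div_div_eq_div_mul, ← pow_succ'] at this

/-- All rows but the last of the first `a` give zero, the last one has the sign `e`. -/
def chkW (B : ℕ) : ℕ → Bool → ℕ → ℕ → List (List ℤ) → Bool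
  | _, _, _, _, [] => false
  | 0, _, _, _, _ => false
  | 1, e, k, C, r :: _ => decide (0 < (if e then dotB B k C r else -dotB B k C r))
  | a + 2, e, k, C, r :: rs => decide (dotB B k C r = 0) && chkW B (a + 1) e k C rs

theorem chkW_spec {B a : ℕ} {e : Bool} {k C : ℕ} {L : List (List ℤ)}
    (h : chkW B a e k C L = true) :
    (∀ i < a - 1, dotB B k C (L.getD i []) = 0) ∧
      0 < (if e then dotB B k C (L.getD (a - 1) []) else -dotB B k C (L.getD (a - 1) [])) ∧
      1 ≤ a ∧ a ≤ L.length := by
  induction L generalizing a with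
  | nil => rcases a with _ | _ | a <;> simp [chkW] at h
  | cons r rs ih =>
    rcases a with _ | _ | a
    · simp [chkW] at h
    · refine ⟨fun i hi => by omega, ?_, le_refl _, by simp⟩
      simp only [chkW, decide_eq_true_eq] at h
      simpa using h
    · simp only [chkW, Bool.and_eq_true, decide_eq_true_eq] at h
      obtain ⟨h1, h2, h3, h4⟩ := ih h.2
      refine ⟨?_, ?_, by omega, by simp only [List.length_cons]; omega⟩
      · intro i hi
        rcases Nat.eq_zero_or_pos i with rfl | hi0
        · simpa using h.1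
        · obtain ⟨m, rfl⟩ : ∃ m, i = m + 1 := ⟨i - 1, by omega⟩
          simpa using h1 m (by omega)
      · have e1 : a + 1 + 1 - 1 = (a + 1 - 1) + 1 := by omega
        rw [e1, List.getD_cons_succ]
        exact h2

/-- The level of a window: four bits. -/
def wk (T c : ℕ) : ℕ := (T >>> (5 * c)) % 16

/-- The sign of a window: one bit. -/
def ws (T c : ℕ) : Bool := decide ((T >>> (5 * c)) % 32 / 16 = 1)

/-- The windows with the codes `c, c + 1, …`: trivial ones or with a certificate. -/
def chkL (B m T : ℕ) (L : List (List ℤ)) : ℕ → List ℕ → Bool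
  | _, [] => true
  | c, C :: Cs => ((decide (wk T c = 1) && ws T c) ||
      (posB B (m + 1) C && chkW B (wk T c) (ws T c) (2 * c + 1) C L)) && chkL B m T L (c + 1) Cs

theorem chkL_spec {B m T : ℕ} {L : List (List ℤ)} {c : ℕ} {Cs : List ℕ}
    (h : chkL B m T L c Cs = true) : ∀ i < Cs.length,
    (wk T (c + i) = 1 ∧ ws T (c + i) = true) ∨ (posB B (m + 1) (Cs.getD i 0) = true ∧
      chkW B (wk T (c + i)) (ws T (c + i)) (2 * (c + i) + 1) (Cs.getD i 0) L = true) := by
  induction Cs generalizing c with
  | nil => intro i hi; simp at hi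
  | cons C Cs ih =>
    rw [chkL, Bool.and_eq_true, Bool.or_eq_true, Bool.and_eq_true, Bool.and_eq_true,
      decide_eq_true_eq] at h
    intro i hi
    rcases Nat.eq_zero_or_pos i with rfl | hi0
    · simpa using h.1
    · obtain ⟨m, rfl⟩ : ∃ m, i = m + 1 := ⟨i - 1, by omega⟩
      have := ih h.2 m (by simp only [List.length_cons] at hi; omega)
      rw [List.getD_cons_succ]
      have e : c + (m + 1) = c + 1 + m := by omega
      rw [e]
      exact this

/-- The rows of a window with the additional column `(1, 0, …, 0)` in front. -/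
def ext : List (List ℤ) → List (List ℤ)
  | [] => []
  | r :: rs => (1 :: r) :: rs.map fun r => 0 :: r

theorem ext_length (L : List (List ℤ)) : (ext L).length = L.length := by
  cases L <;> simp [ext]

theorem ext_getD (L : List (List ℤ)) {i : ℕ} (hi : i < L.length) :
    (ext L).getD i [] = (if i = 0 then 1 else 0) :: L.getD i [] := by
  cases L with
  | nil => simp at hi
  | cons r rs =>
    rcases Nat.eq_zero_or_pos i with rfl | hi0
    · simp [ext]
    · obtain ⟨j, rfl⟩ : ∃ j, i = j + 1 := ⟨i - 1, by omega⟩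
      have hj : j < rs.length := by simpa using hi
      simp [ext, List.getD_eq_getElem?_getD, hj]

/-- From a checked certificate to the window. -/
theorem win_of_chk {B m c C k : ℕ} {σ : Bool} {L : List (List ℤ)} {A : ℕ → ℕ → ℝ}
    {t : ℕ → Bool} (hL : ∀ i < L.length, (L.getD i []).length = m)
    (hA : ∀ i < L.length, ∀ j < m, A j i = (((L.getD i []).getD j 0 : ℤ) : ℝ))
    (ht : ∀ j < m, c.testBit j = t j)
    (hp : posB B (m + 1) C = true) (hc : chkW B k σ (2 * c + 1) C (ext L) = true)
    (hspan : ∀ d : ℕ → ℝ, d 0 = 0 → (∀ j < m, ∑ i ∈ range k, d i * A j i = 0) →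
      ∀ i < k, d i = 0) :
    Win A m 0 true t k σ := by
  obtain ⟨h1, h2, h3, h4⟩ := chkW_spec hc
  rw [ext_length] at h4
  have hpos := posB_spec hp
  -- the value of a row
  obtain ⟨w, hw⟩ : ∃ w : ℕ → ℕ, ∀ j, C / B ^ j % B = w j := ⟨_, fun _ => rfl⟩
  have hd : ∀ i < L.length, ((dotB B (2 * c + 1) C ((ext L).getD i []) : ℤ) : ℝ) =
      (w 0 : ℝ) * (if i = 0 then 1 else 0) +
        ∑ j ∈ range m, (w (j + 1) : ℝ) * (sg (t j) * A j i) := by
    intro i hi
    rw [ext_getD L hi, dotB_eq, List.length_cons, hL i hi, Finset.sum_range_succ']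
    have e0 : (2 * c + 1).testBit 0 = true := by simp
    simp only [hw, e0]
    push_cast
    rw [add_comm]
    congr 1
    · by_cases h : i = 0 <;> simp [h]
    · refine Finset.sum_congr rfl fun j hj => ?_
      have hj' := Finset.mem_range.1 hj
      have e1 : (2 * c + 1).testBit (j + 1) = t j := by
        rw [Nat.testBit_succ, ← ht j hj']
        congr 1
        omega
      rw [e1, hA i hi j hj', List.getD_cons_succ]
      cases t j <;> simp [sg]
  have hlast := hd (k - 1) (by omega)
  set K : ℝ := sg σ * ((dotB B (2 * c + 1) C ((ext L).getD (k - 1) []) : ℤ) : ℝ) with hK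
  have hKpos : 0 < K := by
    have h5 : (0 : ℝ) < (((if σ then dotB B (2 * c + 1) C ((ext L).getD (k - 1) [])
      else -dotB B (2 * c + 1) C ((ext L).getD (k - 1) [])) : ℤ) : ℝ) := by exact_mod_cast h2
    rw [hK]
    cases σ
    · simpa [sg] using h5
    · simpa [sg] using h5
  refine win_of_cert A m 0 true t k σ (fun j => (w (j + 1) : ℝ)) (w 0 : ℝ) K ?_ ?_ hKpos h3 ?_ ?_
  · intro j hj
    have := hpos (j + 1) (by omega)
    rw [hw] at this
    exact_mod_cast this
  · have := hpos 0 (by omega)
    rw [hw] at this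
    exact_mod_cast this
  · intro i hi
    have h6 := hd i (by omega)
    have e : sg true = 1 := by simp [sg]
    rw [e, mul_one]
    simp only [Nat.zero_add]
    rw [← h6]
    by_cases hik : i = k - 1
    · rw [if_pos hik, hK, hik]
      have : sg σ * sg σ = 1 := by cases σ <;> simp [sg]
      rw [← mul_assoc, this, one_mul]
    · rw [if_neg hik, h1 i (by omega)]
      simp
  · intro d hd0 hz
    refine hspan d hd0 fun j hj => ?_
    have := hz j hj
    simpa using this

theorem win_neg {B : ℕ → ℕ → ℝ} {m p : ℕ} {ε : Bool} {t : ℕ → Bool} {k : ℕ} {ε' : Bool}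
    (h : Win B m p ε (fun j => !t j) k ε') : Win B m p (!ε) t k (!ε') := by
  have hn : ∀ b : Bool, sg (!b) = -sg b := fun b => by cases b <;> simp [sg]
  intro c hc h0 hj
  have key := h (fun i => -c i) (by
    obtain ⟨i, hi, hci⟩ := hc
    exact ⟨i, hi, neg_ne_zero.2 hci⟩) (by rw [hn] at h0; linarith) (by
    intro j hjm
    have h1 := hj j hjm
    have e : ∑ i ∈ range k, -c i * B j (p + i) = -∑ i ∈ range k, c i * B j (p + i) := by
      rw [← sum_neg_distrib]; exact sum_congr rfl fun i _ => by ring
    rw [e, hn]; linarith)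
  rw [hn]; linarith

/-- The span condition from a left inverse. -/
theorem span_of_inv {m k : ℕ} {A : ℕ → ℕ → ℝ} {G : ℕ → ℕ → ℝ} {D : ℝ} (hD : D ≠ 0)
    (hk : k ≤ m + 1)
    (hG : ∀ a < m, ∀ i < m, ∑ j ∈ range m, G a j * A j (i + 1) = if a = i then D else 0) :
    ∀ d : ℕ → ℝ, d 0 = 0 → (∀ j < m, ∑ i ∈ range k, d i * A j i = 0) → ∀ i < k, d i = 0 := by
  intro d h0 hz i hi
  rcases Nat.eq_zero_or_pos i with rfl | hi0
  · exact h0
  obtain ⟨a, rfl⟩ : ∃ a, i = a + 1 := ⟨i - 1, by omega⟩
  obtain ⟨k', rfl⟩ : ∃ k', k = k' + 1 := ⟨k - 1, by omega⟩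
  have hz' : ∀ j < m, ∑ i ∈ range k', d (i + 1) * A j (i + 1) = 0 := by
    intro j hj
    have := hz j hj
    rwa [sum_range_succ', h0, zero_mul, add_zero] at this
  have h1 : ∑ j ∈ range m, G a j * ∑ i ∈ range k', d (i + 1) * A j (i + 1) = 0 :=
    sum_eq_zero fun j hj => by rw [hz' j (mem_range.1 hj), mul_zero]
  have h2 : ∑ j ∈ range m, G a j * ∑ i ∈ range k', d (i + 1) * A j (i + 1)
      = ∑ i ∈ range k', d (i + 1) * ∑ j ∈ range m, G a j * A j (i + 1) := by
    simp only [mul_sum]
    rw [sum_comm]
    exact sum_congr rfl fun i _ => sum_congr rfl fun j _ => by ring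
  rw [h2] at h1
  have h3 : ∀ i ∈ range k', d (i + 1) * ∑ j ∈ range m, G a j * A j (i + 1)
      = if a = i then d (i + 1) * D else 0 := by
    intro i hi
    have := mem_range.1 hi
    rw [hG a (by omega) i (by omega)]
    by_cases h : a = i <;> simp [h]
  rw [sum_congr rfl h3, sum_ite_eq, if_pos (mem_range.2 (by omega))] at h1
  exact (mul_eq_zero.1 h1).resolve_right hD

/-- Iterated conjunction. -/
def allN : ℕ → (ℕ → Bool) → Bool
  | 0, _ => true
  | n + 1, f => f n && allN n f

theorem allN_spec {n : ℕ} {f : ℕ → Bool} (h : allN n f = true) : ∀ k < n, f k = true := by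
  induction n with
  | zero => intro k hk; omega
  | succ n ih =>
    rw [allN, Bool.and_eq_true] at h
    intro k hk
    rcases Nat.lt_succ_iff_lt_or_eq.1 hk with h' | rfl
    · exact ih h.2 k h'
    · exact h.1

end Pool.Agent.H77.Nu
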