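import Pool.Agent.H77.Nu.Block
import Pool.Agent.H67.Nu.Column
import Pool.Agent.H67.Nu.Family
import Pool.Agent.H67.Nu.Generic
import Pool.Agent.H67.Nu.Points

/-!
Chains of blocks (MP_1e71f9_co): profiles of sign vectors, one column of the lexicographic tail,
and the sets of profiles between two blocks.
-/

set_option autoImplicit false

namespace Pool.Agent.H77.Nu

open Finset Pool.Agent.H67.Nu

theorem st_zero (x : ℕ → ℕ → ℝ) (n : ℕ) (s : ℕ → Bool) (ε : Bool) : St x n s 0 ε := by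
  intro c hc _
  obtain ⟨i, hi, _⟩ := hc
  exact absurd hi (Nat.not_lt_zero _)

/-- A state of higher level contains all states of lower level. -/
theorem st_lower {x : ℕ → ℕ → ℝ} {n : ℕ} {s : ℕ → Bool} {b : ℕ} {δ : Bool}
    (h : St x n s b δ) {a : ℕ} (hab : a < b) (ε : Bool) : St x n s a ε := by
  intro c hc hj
  exfalso
  obtain ⟨j, hjn, hlt⟩ := (h.dead hab) c hc
  exact absurd (hj j hjn) (not_le.2 hlt)

/-- The level of a state is at most the number of columns. -/
theorem st_le {x : ℕ → ℕ → ℝ} {n : ℕ} {s : ℕ → Bool} {a : ℕ} {ε : Bool}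
    (h : St x n s a ε) : a ≤ n := by
  by_contra hcon
  push Not at hcon
  let f : (Fin a → ℝ) →ₗ[ℝ] (Fin n → ℝ) :=
    { toFun := fun c j => ∑ i : Fin a, c i * x j i
      map_add' := by
        intro c d; funext j
        simp only [Pi.add_apply, add_mul, sum_add_distrib]
      map_smul' := by
        intro r c; funext j
        simp only [Pi.smul_apply, smul_eq_mul, RingHom.id_apply, mul_sum, mul_assoc] }
  have hker : LinearMap.ker f ≠ ⊥ := LinearMap.ker_ne_bot_of_finrank_lt (by simpa using hcon)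
  obtain ⟨c, hc, hne⟩ := (Submodule.ne_bot_iff _).1 hker
  rw [LinearMap.mem_ker] at hc
  let c' : ℕ → ℝ := fun i => if hi : i < a then c ⟨i, hi⟩ else 0
  have hc' : ∀ i : Fin a, c' i = c i := fun i => by
    simp only [c', Fin.is_lt, dif_pos]
  have hex : ∃ i < a, c' i ≠ 0 := by
    by_contra h0
    push Not at h0
    exact hne (funext fun i => by rw [← hc' i]; exact h0 i i.2)
  have hz : ∀ j < n, ∑ i ∈ range a, c' i * x j i = 0 := by
    intro j hj
    have h1 := congrFun hc ⟨j, hj⟩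
    rw [← Fin.sum_univ_eq_sum_range (fun i => c' i * x j i) a]
    have h2 : ∑ i : Fin a, c' i * x j i = ∑ i : Fin a, c i * x j i :=
      sum_congr rfl fun i _ => by rw [hc' i]
    rw [h2]; exact h1
  have h1 := h c' hex fun j hj => by rw [hz j hj, mul_zero]
  have h2 := h (fun i => -c' i) (by
    obtain ⟨i, hi, hi'⟩ := hex
    exact ⟨i, hi, neg_ne_zero.2 hi'⟩) fun j hj => by
      have e : ∑ i ∈ range a, -c' i * x j i = -∑ i ∈ range a, c' i * x j i := by
        rw [← sum_neg_distrib]; exact sum_congr rfl fun i _ => by ring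
      rw [e, hz j hj, neg_zero, mul_zero]
  have e3 : sg ε * -c' (a - 1) = -(sg ε * c' (a - 1)) := by ring
  rw [e3] at h2
  linarith

/-- One column of the tail, with a given sign pattern. -/
theorem exists_col (x : ℕ → ℕ → ℝ) (n : ℕ) (e : ℕ → Bool) :
    ∃ x' : ℕ → ℕ → ℝ, (∀ j < n, x' j = x j) ∧ ∀ (s : ℕ → Bool) (a : ℕ) (ε : Bool),
      St x n s a ε → St x' (n + 1) s (step e (a, ε) (s n)).1 (step e (a, ε) (s n)).2 := by
  obtain ⟨y, hy⟩ := exists_column x n n e
  refine ⟨fun j => if j < n then x j else y, fun j hj => by simp [hj], fun s a ε h => ?_⟩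
  exact hy _ (fun j hj => by simp [hj]) (by simp) s a ε (st_le h) h

/-- The sign pattern `e` changed in the rows above the cut: level `a` is kept for `a ≤ C`. -/
def cut (e : ℕ → Bool) (C : ℤ) : ℕ → Bool := fun i => if (i : ℤ) + 1 ≤ C then e i else !(e i)

/-- `1` if level `P` moves: below the cut `c` the levels move for `b = true`, above for
`b = false`. -/
def mv (b : Bool) (c P : ℤ) : ℤ := if decide (P ≤ c) = b then 1 else 0

theorem move {x x' : ℕ → ℕ → ℝ} {n : ℕ} {e : ℕ → Bool} {C : ℤ}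
    (h : ∀ (s : ℕ → Bool) (a : ℕ) (ε : Bool), St x n s a ε →
      St x' (n + 1) s (step (cut e C) (a, ε) (s n)).1 (step (cut e C) (a, ε) (s n)).2)
    (s : ℕ → Bool) (b0 : Bool) (a : ℕ) (ha : St x n s a (b0 == e (a - 1))) (a' : ℕ)
    (ha' : (a' : ℤ) ≤ a + mv (xor (s n) b0) C a) :
    St x' (n + 1) s a' (s n == cut e C (a' - 1)) := by
  have h1 := h s a _ ha
  rcases Nat.eq_zero_or_pos a with h0 | hpos
  · subst h0
    have e1 : step (cut e C) (0, b0 == e (0 - 1)) (s n) = (1, s n == cut e C 0) := by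
      simp [step]
    rw [e1] at h1
    have hm : mv (xor (s n) b0) C ((0 : ℕ) : ℤ) ≤ 1 := by unfold mv; split_ifs <;> omega
    have h2 : a' ≤ 1 := by omega
    rcases Nat.lt_or_ge a' 1 with h3 | h3
    · exact st_lower h1 h3 _
    · have h4 : a' = 1 := by omega
      subst h4; exact h1
  · have hcut : cut e C (a - 1) = if (a : ℤ) ≤ C then e (a - 1) else !(e (a - 1)) := by
      unfold cut
      have : ((a - 1 : ℕ) : ℤ) + 1 = a := by omega
      rw [this]
    by_cases hst : s n = (cut e C (a - 1) == (b0 == e (a - 1)))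
    · have e1 : step (cut e C) (a, b0 == e (a - 1)) (s n) = (a, b0 == e (a - 1)) := by
        unfold step
        rw [if_pos ⟨by simpa using hpos.ne', hst⟩]
      rw [e1] at h1
      simp only at h1
      have hm : mv (xor (s n) b0) C a = 0 := by
        unfold mv
        rw [if_neg]
        rw [hcut] at hst
        by_cases hl : (a : ℤ) ≤ C
        · rw [if_pos hl] at hst
          simp only [hl, decide_true]
          revert hst
          cases s n <;> cases b0 <;> cases e (a - 1) <;> decide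
        · rw [if_neg hl] at hst
          simp only [hl, decide_false]
          revert hst
          cases s n <;> cases b0 <;> cases e (a - 1) <;> decide
      rw [hm] at ha'
      have h2 : a' ≤ a := by omega
      rcases Nat.lt_or_ge a' a with h3 | h3
      · exact st_lower h1 h3 _
      · have h4 : a' = a := by omega
        subst h4
        have e2 : (s n == cut e C (a' - 1)) = (b0 == e (a' - 1)) := by
          revert hst
          cases s n <;> cases b0 <;> cases e (a' - 1) <;> cases cut e C (a' - 1) <;> decide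
        rw [e2]; exact h1
    · have e1 : step (cut e C) (a, b0 == e (a - 1)) (s n) = (a + 1, s n == cut e C a) := by
        unfold step
        rw [if_neg]
        rintro ⟨-, h2⟩
        exact hst h2
      rw [e1] at h1
      simp only at h1
      have hm : mv (xor (s n) b0) C a ≤ 1 := by unfold mv; split_ifs <;> omega
      have h2 : a' ≤ a + 1 := by omega
      rcases Nat.lt_or_ge a' (a + 1) with h3 | h3
      · exact st_lower h1 h3 _
      · have h4 : a' = a + 1 := by omega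
        subst h4
        exact h1

/-- `move` for integer levels, relative to `R`. -/
theorem moveZ {x x' : ℕ → ℕ → ℝ} {n : ℕ} {e : ℕ → Bool} {R c : ℤ}
    (h : ∀ (s : ℕ → Bool) (a : ℕ) (ε : Bool), St x n s a ε →
      St x' (n + 1) s (step (cut e (c + R)) (a, ε) (s n)).1
        (step (cut e (c + R)) (a, ε) (s n)).2)
    (s : ℕ → Bool) (b0 : Bool) (P P' k : ℤ)
    (ha : St x n s (P + R).toNat (b0 == e ((P + R).toNat - 1)))
    (hP : P' + k ≤ P + mv (xor (s n) b0) c P) :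
    St x' (n + 1) s (P' + (R + k)).toNat
      (s n == cut e (c + R) ((P' + (R + k)).toNat - 1)) := by
  rcases lt_or_ge (P + R) 0 with h0 | h0
  · have hm : mv (xor (s n) b0) c P ≤ 1 := by unfold mv; split_ifs <;> omega
    have e1 : (P' + (R + k)).toNat = 0 := by omega
    rw [e1]
    exact st_zero _ _ _ _
  · refine move h s b0 _ ha _ ?_
    have e1 : ((P + R).toNat : ℤ) = P + R := Int.toNat_of_nonneg h0
    have e2 : mv (xor (s n) b0) (c + R) ((P + R).toNat : ℤ) = mv (xor (s n) b0) c P := by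
      unfold mv
      rw [e1]
      have : (P + R ≤ c + R) ↔ (P ≤ c) := by constructor <;> intro h <;> omega
      simp only [this]
    rw [e2, e1]
    have h3 : 0 ≤ P + mv (xor (s n) b0) c P + R := by
      unfold mv; split_ifs <;> omega
    omega

/-- The profile of a sign vector at the stage of `N + 1` columns, the last one with pattern `e`:
own level, level of a flip of an older column, level of the flip of the last column. -/
def Pr (x : ℕ → ℕ → ℝ) (N : ℕ) (e : ℕ → Bool) (s : ℕ → Bool) (P Q T : ℕ) : Prop :=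
  St x (N + 1) s P (s N == e (P - 1)) ∧
    (∃ i < N, St x (N + 1) (flip s i) Q (s N == e (Q - 1))) ∧
    St x (N + 1) (flip s N) T ((!s N) == e (T - 1))

/-- Every sign vector has a profile in the set `X`, relative to `R`. -/
def Inv (x : ℕ → ℕ → ℝ) (N : ℕ) (e : ℕ → Bool) (R : ℤ) (X : ℤ → ℤ → ℤ → Prop) : Prop :=
  ∀ s : ℕ → Bool, ∃ P Q T : ℤ, X P Q T ∧
    Pr x N e s (P + R).toNat (Q + R).toNat (T + R).toNat

/-- One column with cut `c` sends the set `X` into the set `X'`, moved by `k`. -/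
def LStep (c k : ℤ) (X X' : ℤ → ℤ → ℤ → Prop) : Prop :=
  ∀ P Q T, X P Q T → ∀ b : Bool, ∃ P' Q' T', X' P' Q' T' ∧ P' + k ≤ P + mv b c P ∧
    (Q' + k ≤ Q + mv b c Q ∨ Q' + k ≤ T + mv (!b) c T) ∧ T' + k ≤ P + mv (!b) c P

theorem flip_apply_self (s : ℕ → Bool) (i : ℕ) : flip s i i = !s i := by
  simp [Pool.Agent.H67.Nu.flip]

theorem flip_apply_ne {s : ℕ → Bool} {i j : ℕ} (h : j ≠ i) : flip s i j = s j := by
  simp [Pool.Agent.H67.Nu.flip, h]

theorem Inv.lom {x : ℕ → ℕ → ℝ} {N : ℕ} {e : ℕ → Bool} {R c k : ℤ}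
    {X X' : ℤ → ℤ → ℤ → Prop} (h : Inv x N e R X) (hs : LStep c k X X') :
    ∃ x' e', (∀ j < N + 1, x' j = x j) ∧ Inv x' (N + 1) e' (R + k) X' := by
  obtain ⟨x', hx, hcol⟩ := exists_col x (N + 1) (cut e (c + R))
  refine ⟨x', cut e (c + R), hx, fun s => ?_⟩
  obtain ⟨P, Q, T, hX, hP, ⟨i, hi, hQ⟩, hT⟩ := h s
  obtain ⟨P', Q', T', hX', h1, h2, h3⟩ := hs P Q T hX (xor (s (N + 1)) (s N))
  refine ⟨P', Q', T', hX', ?_, ?_, ?_⟩
  · exact moveZ hcol s (s N) P P' k hP h1
  · rcases h2 with h2 | h2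
    · refine ⟨i, by omega, ?_⟩
      have e1 : flip s i (N + 1) = s (N + 1) := flip_apply_ne (by omega)
      have := moveZ hcol (flip s i) (s N) Q Q' k hQ (by rw [e1]; exact h2)
      rwa [e1] at this
    · refine ⟨N, by omega, ?_⟩
      have e1 : flip s N (N + 1) = s (N + 1) := flip_apply_ne (by omega)
      have e2 : xor (s (N + 1)) (!s N) = !(xor (s (N + 1)) (s N)) := by
        cases s (N + 1) <;> cases s N <;> rfl
      have := moveZ hcol (flip s N) (!s N) T Q' k hT (by rw [e1, e2]; exact h2)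
      rwa [e1] at this
  · have e1 : flip s (N + 1) (N + 1) = !s (N + 1) := flip_apply_self _ _
    have e2 : xor (!s (N + 1)) (s N) = !(xor (s (N + 1)) (s N)) := by
      cases s (N + 1) <;> cases s N <;> rfl
    have hP' : St x (N + 1) (flip s (N + 1)) (P + R).toNat (s N == e ((P + R).toNat - 1)) :=
      st_congr (fun j hj => flip_apply_ne (by omega)) hP
    have := moveZ hcol (flip s (N + 1)) (s N) P T' k hP' (by rw [e1, e2]; exact h3)
    rwa [e1] at this

theorem Inv.mono {x : ℕ → ℕ → ℝ} {N : ℕ} {e : ℕ → Bool} {R : ℤ}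
    {X X' : ℤ → ℤ → ℤ → Prop} (h : Inv x N e R X) (k : ℤ)
    (hs : ∀ P Q T, X P Q T → ∃ P' Q' T', X' P' Q' T' ∧ P' + k ≤ P ∧ Q' + k ≤ Q ∧ T' + k ≤ T) :
    Inv x N e (R + k) X' := by
  intro s
  obtain ⟨P, Q, T, hX, hP, ⟨i, hi, hQ⟩, hT⟩ := h s
  obtain ⟨P', Q', T', hX', h1, h2, h3⟩ := hs P Q T hX
  have low : ∀ (u : ℕ → Bool) (b0 : Bool) (A A' : ℤ), A' + k ≤ A →
      St x (N + 1) u (A + R).toNat (b0 == e ((A + R).toNat - 1)) →
      St x (N + 1) u (A' + (R + k)).toNat (b0 == e ((A' + (R + k)).toNat - 1)) := by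
    intro u b0 A A' hA hst
    have h4 : (A' + (R + k)).toNat ≤ (A + R).toNat := by omega
    rcases Nat.lt_or_ge (A' + (R + k)).toNat (A + R).toNat with h5 | h5
    · exact st_lower hst h5 _
    · have h6 : (A' + (R + k)).toNat = (A + R).toNat := by omega
      rw [h6]; exact hst
  exact ⟨P', Q', T', hX', low s _ P P' h1 hP, ⟨i, hi, low _ _ Q Q' h2 hQ⟩, low _ _ T T' h3 hT⟩

theorem mv_true (c P : ℤ) : mv true c P = if P ≤ c then 1 else 0 := by
  unfold mv; by_cases h : P ≤ c <;> simp [h]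

theorem mv_false (c P : ℤ) : mv false c P = if P ≤ c then 0 else 1 := by
  unfold mv; by_cases h : P ≤ c <;> simp [h]

/-- A way to prove `LStep`: all levels as high as possible, the own level possibly lowered to
`t`. -/
theorem LStep.of {c k : ℤ} {X X' : ℤ → ℤ → ℤ → Prop} (t : ℤ)
    (h : ∀ P Q T, X P Q T → ∀ b : Bool,
      X' (min (P + mv b c P - k) t) (max (Q + mv b c Q) (T + mv (!b) c T) - k)
        (P + mv (!b) c P - k)) : LStep c k X X' := by
  intro P Q T hX b
  refine ⟨_, _, _, h P Q T hX b, ?_, ?_, ?_⟩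
  · have := min_le_left (P + mv b c P - k) t
    omega
  · rcases le_total (Q + mv b c Q) (T + mv (!b) c T) with h1 | h1
    · right; rw [max_eq_right h1]; omega
    · left; rw [max_eq_left h1]; omega
  · omega

/-- The main part of the sets of profiles in the tail: phase `q`, parameter `C`. -/
def F (q C P Q : ℤ) : Prop :=
  (2 * (q - P)) / 3 + 1 ≤ Q ∧ min ((3 * -P) / 2) (C - P) + q ≤ Q

def S0 (C P Q T : ℤ) : Prop := P = 1 ∨ (P = 0 ∧ (1 ≤ Q ∨ 1 ≤ T)) ∨ (P ≤ -1 ∧ F 0 C P Q)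

def S1 (C P Q _T : ℤ) : Prop := P = 1 ∨ (P ≤ 0 ∧ F 1 C P Q)

def S2 (C P Q _T : ℤ) : Prop := P = 1 ∨ (P ≤ 0 ∧ F 2 C P Q)

def S3 (C P Q T : ℤ) : Prop := P = 2 ∨ (P = 1 ∧ (2 ≤ Q ∨ 2 ≤ T)) ∨ (P ≤ 0 ∧ F 3 C P Q)

def S4 (C P Q T : ℤ) : Prop :=
  P = 2 ∨ (P = 1 ∧ (3 ≤ Q ∨ (2 ≤ Q ∧ 2 ≤ T))) ∨ (P ≤ 0 ∧ F 4 C P Q)

def S2' (C P Q T : ℤ) : Prop := P = 2 ∨ (P = 1 ∧ (1 ≤ Q ∨ 2 ≤ T)) ∨ (P ≤ 0 ∧ F 2 C P Q)

/-- The set of profiles at the start of a block. -/
def XS (C P Q T : ℤ) : Prop :=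
  (P = 0 ∧ (1 ≤ Q ∨ 1 ≤ T)) ∨ (P ≤ -1 ∧ min ((3 * -P + 1) / 2) (C - P) ≤ Q)

theorem step01 (C : ℤ) : LStep (-1) 0 (S0 C) (S1 C) := by
  refine LStep.of 1 fun P Q T h b => ?_
  unfold S0 F at h
  unfold S1 F
  cases b <;> simp only [mv_true, mv_false, Bool.not_true, Bool.not_false] <;>
    split_ifs <;> omega

theorem step12 (C : ℤ) : LStep 0 0 (S1 C) (S2 C) := by
  refine LStep.of 1 fun P Q T h b => ?_
  unfold S1 F at h
  unfold S2 F
  cases b <;> simp only [mv_true, mv_false, Bool.not_true, Bool.not_false] <;>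
    split_ifs <;> omega

theorem step23 (C : ℤ) : LStep 0 0 (S2 C) (S3 C) := by
  refine LStep.of 2 fun P Q T h b => ?_
  unfold S2 F at h
  unfold S3 F
  cases b <;> simp only [mv_true, mv_false, Bool.not_true, Bool.not_false] <;>
    split_ifs <;> omega

theorem step34 (C : ℤ) : LStep 0 0 (S3 C) (S4 C) := by
  refine LStep.of 2 fun P Q T h b => ?_
  unfold S3 F at h
  unfold S4 F
  cases b <;> simp only [mv_true, mv_false, Bool.not_true, Bool.not_false] <;>
    split_ifs <;> omega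

theorem step40 (C : ℤ) : LStep 0 2 (S4 C) (S0 (C + 1)) := by
  refine LStep.of 1 fun P Q T h b => ?_
  unfold S4 F at h
  unfold S0 F
  cases b <;> simp only [mv_true, mv_false, Bool.not_true, Bool.not_false] <;>
    split_ifs <;> omega

theorem step12' (C : ℤ) : LStep 0 0 (S1 C) (S2' C) := by
  refine LStep.of 2 fun P Q T h b => ?_
  unfold S1 F at h
  unfold S2' F
  cases b <;> simp only [mv_true, mv_false, Bool.not_true, Bool.not_false] <;>
    split_ifs <;> omega

theorem step2X (C : ℤ) : LStep 0 1 (S2' C) (XS (C + 1)) := by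
  refine LStep.of 0 fun P Q T h b => ?_
  unfold S2' F at h
  unfold XS
  cases b <;> simp only [mv_true, mv_false, Bool.not_true, Bool.not_false] <;>
    split_ifs <;> omega

theorem stepX0 (C P Q T : ℤ) (hC : 0 ≤ C) (h : XS (C + 1) P Q T) : S0 C P Q T := by
  unfold XS at h
  unfold S0 F
  omega

/-- There is a family of `N + 1` columns for which every sign vector has a profile in `X`,
relative to `R`. -/
def Ex (N : ℕ) (R : ℤ) (X : ℤ → ℤ → ℤ → Prop) : Prop := ∃ x e, Inv x N e R X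

theorem Ex.lom {N : ℕ} {R c k : ℤ} {X X' : ℤ → ℤ → ℤ → Prop} (h : Ex N R X)
    (hs : LStep c k X X') : Ex (N + 1) (R + k) X' := by
  obtain ⟨x, e, h⟩ := h
  obtain ⟨x', e', -, h'⟩ := h.lom hs
  exact ⟨x', e', h'⟩

theorem Ex.X0 {N : ℕ} {R C : ℤ} (hC : 0 ≤ C) (h : Ex N R (XS (C + 1))) : Ex N R (S0 C) := by
  obtain ⟨x, e, h⟩ := h
  refine ⟨x, e, ?_⟩
  have := h.mono 0 (X' := S0 C) fun P Q T hX =>
    ⟨P, Q, T, stepX0 C P Q T hC hX, by omega, by omega, by omega⟩
  simpa using this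

theorem Ex.period {N : ℕ} {R C : ℤ} (h : Ex N R (S0 C)) : Ex (N + 5) (R + 2) (S0 (C + 1)) := by
  have := ((((h.lom (step01 C)).lom (step12 C)).lom (step23 C)).lom (step34 C)).lom (step40 C)
  simpa [add_assoc] using this

theorem Ex.periods {N : ℕ} {R C : ℤ} (h : Ex N R (S0 C)) (j : ℕ) :
    Ex (N + 5 * j) (R + 2 * j) (S0 (C + j)) := by
  induction j with
  | zero => simpa using h
  | succ j ih =>
    have := ih.period
    have e1 : N + 5 * (j + 1) = N + 5 * j + 5 := by ring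
    have e2 : R + 2 * ((j + 1 : ℕ) : ℤ) = R + 2 * j + 2 := by push_cast; ring
    have e3 : C + ((j + 1 : ℕ) : ℤ) = C + j + 1 := by push_cast; ring
    rw [e1, e2, e3]; exact this

theorem Ex.toX {N : ℕ} {R C : ℤ} (h : Ex N R (S0 C)) : Ex (N + 3) (R + 1) (XS (C + 1)) := by
  have := ((h.lom (step01 C)).lom (step12' C)).lom (step2X C)
  simpa [add_assoc] using this

/-- `N` vectors in rank `r` for which no sign vector is complete. -/
def Bad (N r : ℕ) : Prop :=
  ∃ x : ℕ → ℕ → ℝ, ∀ s : ℕ → Bool, ∃ t, (t = s ∨ ∃ i < N, t = flip s i) ∧ Dead x N r t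

theorem Ex.bad {N : ℕ} {R C : ℤ} (h : Ex N R (S0 C)) (r : ℕ) (hr : (r : ℤ) ≤ R) :
    Bad (N + 1) r := by
  obtain ⟨x, e, h⟩ := h
  refine ⟨x, fun s => ?_⟩
  obtain ⟨P, Q, T, hX, hP, ⟨i, hi, hQ⟩, hT⟩ := h s
  have hcase : 1 ≤ P ∨ 1 ≤ Q ∨ 1 ≤ T := by
    unfold S0 F at hX
    omega
  rcases hcase with h1 | h1 | h1
  · exact ⟨s, Or.inl rfl, hP.dead (by omega)⟩
  · exact ⟨_, Or.inr ⟨i, by omega, rfl⟩, hQ.dead (by omega)⟩
  · exact ⟨_, Or.inr ⟨N, by omega, rfl⟩, hT.dead (by omega)⟩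

/-- The first two columns. -/
theorem ex_start (C : ℤ) : Ex 1 1 (S1 C) := by
  obtain ⟨x, hx⟩ : ∃ x : ℕ → ℕ → ℝ, ∀ s : ℕ → Bool, St x 1 s 1 (s 0) := by
    refine ⟨fun _ _ => 1, fun s c hc hj => ?_⟩
    obtain ⟨i, hi, hci⟩ := hc
    have hi0 : i = 0 := by omega
    subst hi0
    have h0 := hj 0 (by omega)
    simp only [sum_range_one, mul_one] at h0
    refine lt_of_le_of_ne h0 (Ne.symm (mul_ne_zero ?_ hci))
    cases s 0 <;> simp [sg]
  obtain ⟨x', -, hcol⟩ := exists_col x 1 (fun _ => true)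
  refine ⟨x', fun _ => true, fun s => ?_⟩
  have key : ∀ u : ℕ → Bool, St x' 2 u (if u 0 = u 1 then 1 else 2) (u 1) := by
    intro u
    have h1 := hcol u 1 (u 0) (hx u)
    unfold step at h1
    cases h0 : u 0 <;> cases h2 : u 1 <;> simp [h0, h2] at h1 ⊢ <;> exact h1
  have k1 := key s
  have k2 := key (flip s 0)
  have k3 := key (flip s 1)
  have f1 : flip s 0 0 = !s 0 := flip_apply_self _ _
  have f2 : flip s 0 1 = s 1 := flip_apply_ne (by omega)
  have f3 : flip s 1 0 = s 0 := flip_apply_ne (by omega)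
  have f4 : flip s 1 1 = !s 1 := flip_apply_self _ _
  rw [f1, f2] at k2
  rw [f3, f4] at k3
  by_cases hs : s 0 = s 1
  · refine ⟨0, 1, 1, ?_, ?_, ⟨0, by omega, ?_⟩, ?_⟩
    · unfold S1 F; omega
    · rw [if_pos hs] at k1
      simpa using k1
    · rw [if_neg (by rw [hs]; cases s 1 <;> decide)] at k2
      simpa using k2
    · rw [if_neg (by rw [hs]; cases s 1 <;> decide)] at k3
      simpa using k3
  · refine ⟨1, 0, 0, ?_, ?_, ⟨0, by omega, ?_⟩, ?_⟩
    · unfold S1; omega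
    · rw [if_neg hs] at k1
      simpa using k1
    · rw [if_pos (by revert hs; cases s 0 <;> cases s 1 <;> decide)] at k2
      simpa using k2
    · rw [if_pos (by revert hs; cases s 0 <;> cases s 1 <;> decide)] at k3
      simpa using k3

/-- The start of a chain. -/
theorem ex_X (C : ℤ) (v : ℕ) : Ex (8 + 5 * v) (4 + 2 * v) (XS C) := by
  have h1 := (((ex_start (C - 2 - v)).lom (step12 _)).lom (step23 _)).lom (step34 _) |>.lom
    (step40 _)
  have h2 : Ex 5 3 (S0 (C - 1 - v)) := by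
    have e : C - 2 - v + 1 = C - 1 - v := by ring
    rw [e] at h1
    simpa using h1
  have h3 := (h2.periods v).toX
  have e1 : 5 + 5 * v + 3 = 8 + 5 * v := by ring
  have e2 : (3 : ℤ) + 2 * v + 1 = 4 + 2 * v := by ring
  have e3 : C - 1 - (v : ℤ) + v + 1 = C := by ring
  rwa [e1, e2, e3] at h3

/-- What a block of `w` columns (the last one of them a column of the tail) has to do: it sends
`XS C1` into `S0 C2` and moves the critical row by `ρ`. -/
def BlockOK (w : ℕ) (ρ C1 C2 R0 : ℤ) : Prop :=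
  ∀ (N : ℕ) (R : ℤ), R0 ≤ R → Ex N R (XS C1) → Ex (N + w) (R + ρ) (S0 C2)

theorem Ex.cycle {w : ℕ} {ρ C1 C2 R0 : ℤ} (hB : BlockOK w ρ C1 C2 R0) (j : ℕ)
    (hj : C2 + j + 1 = C1) {N : ℕ} {R : ℤ} (hR : R0 ≤ R) (h : Ex N R (XS C1)) :
    Ex (N + (w + 5 * j + 3)) (R + (ρ + 2 * j + 1)) (XS C1) := by
  have h1 := ((hB N R hR h).periods j).toX
  rw [hj] at h1
  have e1 : N + w + 5 * j + 3 = N + (w + 5 * j + 3) := by ring
  have e2 : R + ρ + 2 * (j : ℤ) + 1 = R + (ρ + 2 * j + 1) := by ring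
  rwa [e1, e2] at h1

theorem Ex.cycles {w : ℕ} {ρ C1 C2 R0 : ℤ} (hB : BlockOK w ρ C1 C2 R0) (hρ : 0 ≤ ρ) (j : ℕ)
    (hj : C2 + j + 1 = C1) {N : ℕ} {R : ℤ} (hR : R0 ≤ R) (h : Ex N R (XS C1)) (t : ℕ) :
    Ex (N + (w + 5 * j + 3) * t) (R + (ρ + 2 * j + 1) * t) (XS C1) := by
  induction t with
  | zero => simpa using h
  | succ t ih =>
    have hR' : R0 ≤ R + (ρ + 2 * j + 1) * t := by
      have : 0 ≤ (ρ + 2 * (j : ℤ) + 1) * t := by positivity
      omega
    have := ih.cycle hB j hj hR'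
    have e1 : N + (w + 5 * j + 3) * (t + 1) = N + (w + 5 * j + 3) * t + (w + 5 * j + 3) := by
      ring
    have e2 : R + (ρ + 2 * j + 1) * ((t + 1 : ℕ) : ℤ)
        = R + (ρ + 2 * j + 1) * t + (ρ + 2 * j + 1) := by push_cast; ring
    rw [e1, e2]; exact this

/-- The chain: `t` blocks and a tail. -/
theorem bad_chain {w : ℕ} {ρ C1 C2 : ℤ} (v : ℕ) (hB : BlockOK w ρ C1 C2 (4 + 2 * v))
    (hρ : 0 ≤ ρ) (hC1 : 1 ≤ C1) (j : ℕ) (hj : C2 + j + 1 = C1) (t u r : ℕ)
    (hr : (r : ℤ) ≤ 4 + 2 * v + (ρ + 2 * j + 1) * t + 2 * u) :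
    Bad (9 + 5 * v + (w + 5 * j + 3) * t + 5 * u) r := by
  have h1 := (ex_X C1 v).cycles hB hρ j hj (le_refl _) t
  have e : C1 = (C1 - 1) + 1 := by ring
  rw [e] at h1
  have h2 := ((h1.X0 (by omega)).periods u).bad r (by linarith)
  have e1 : 8 + 5 * v + (w + 5 * j + 3) * t + 5 * u + 1
      = 9 + 5 * v + (w + 5 * j + 3) * t + 5 * u := by ring
  rwa [e1] at h2

end Pool.Agent.H77.Nu
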