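import Pool.Agent.H77.Nu.Descartes

/-!
Chains of blocks, second form (MP_1e71f9_co): the own levels are at least `1`, and a block may use
several windows for the same signs.
-/

set_option autoImplicit false

namespace Pool.Agent.H77.Nu

open Finset Pool.Agent.H67.Nu

/-- `LStep` with control of the own level from below. -/
def LStep2 (c k : ℤ) (X X' : ℤ → ℤ → ℤ → Prop) : Prop :=
  ∀ P Q T, X P Q T → ∀ b : Bool, ∃ P' Q' T', X' P' Q' T' ∧ P' + k ≤ P + mv b c P ∧
    (Q' + k ≤ Q + mv b c Q ∨ Q' + k ≤ T + mv (!b) c T) ∧ T' + k ≤ P + mv (!b) c P ∧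
    (P ≤ P' + k ∨ 0 ≤ P')

theorem mv_nonneg (b : Bool) (c P : ℤ) : 0 ≤ mv b c P := by
  unfold mv; split_ifs <;> omega

theorem LStep2.of {c k : ℤ} {X X' : ℤ → ℤ → ℤ → Prop} (t : ℤ) (ht : 0 ≤ t)
    (h : ∀ P Q T, X P Q T → ∀ b : Bool,
      X' (min (P + mv b c P - k) t) (max (Q + mv b c Q) (T + mv (!b) c T) - k)
        (P + mv (!b) c P - k)) : LStep2 c k X X' := by
  intro P Q T hX b
  refine ⟨_, _, _, h P Q T hX b, ?_, ?_, ?_, ?_⟩
  · have := min_le_left (P + mv b c P - k) t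
    omega
  · rcases le_total (Q + mv b c Q) (T + mv (!b) c T) with h1 | h1
    · right; rw [max_eq_right h1]; omega
    · left; rw [max_eq_left h1]; omega
  · omega
  · have h1 := mv_nonneg b c P
    rcases min_choice (P + mv b c P - k) t with h2 | h2
    · left; rw [h2]; omega
    · right; rw [h2]; exact ht

/-- `Ex` with own levels at least `1`. -/
def ExL (N : ℕ) (R : ℤ) (X : ℤ → ℤ → ℤ → Prop) : Prop :=
  Ex N R fun P Q T => X P Q T ∧ 1 ≤ P + R

theorem ExL.toEx {N : ℕ} {R : ℤ} {X : ℤ → ℤ → ℤ → Prop} (h : ExL N R X) : Ex N R X := by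
  obtain ⟨x, e, h⟩ := h
  refine ⟨x, e, fun s => ?_⟩
  obtain ⟨P, Q, T, hX, hP⟩ := h s
  exact ⟨P, Q, T, hX.1, hP⟩

theorem ExL.lom {N : ℕ} {R c k : ℤ} {X X' : ℤ → ℤ → ℤ → Prop} (h : ExL N R X)
    (hs : LStep2 c k X X') (hk : 1 ≤ R + k) : ExL (N + 1) (R + k) X' := by
  refine Ex.lom (c := c) (k := k) h ?_
  intro P Q T hX b
  obtain ⟨P', Q', T', h1, h2, h3, h4, h5⟩ := hs P Q T hX.1 b
  refine ⟨P', Q', T', ⟨h1, ?_⟩, h2, h3, h4⟩
  have := hX.2
  omega

theorem stepL01 (C : ℤ) : LStep2 (-1) 0 (S0 C) (S1 C) := by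
  refine LStep2.of 1 (by norm_num) fun P Q T h b => ?_
  unfold S0 F at h
  unfold S1 F
  cases b <;> simp only [mv_true, mv_false, Bool.not_true, Bool.not_false] <;>
    split_ifs <;> omega

theorem stepL12 (C : ℤ) : LStep2 0 0 (S1 C) (S2 C) := by
  refine LStep2.of 1 (by norm_num) fun P Q T h b => ?_
  unfold S1 F at h
  unfold S2 F
  cases b <;> simp only [mv_true, mv_false, Bool.not_true, Bool.not_false] <;>
    split_ifs <;> omega

theorem stepL23 (C : ℤ) : LStep2 0 0 (S2 C) (S3 C) := by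
  refine LStep2.of 2 (by norm_num) fun P Q T h b => ?_
  unfold S2 F at h
  unfold S3 F
  cases b <;> simp only [mv_true, mv_false, Bool.not_true, Bool.not_false] <;>
    split_ifs <;> omega

theorem stepL34 (C : ℤ) : LStep2 0 0 (S3 C) (S4 C) := by
  refine LStep2.of 2 (by norm_num) fun P Q T h b => ?_
  unfold S3 F at h
  unfold S4 F
  cases b <;> simp only [mv_true, mv_false, Bool.not_true, Bool.not_false] <;>
    split_ifs <;> omega

theorem stepL40 (C : ℤ) : LStep2 0 2 (S4 C) (S0 (C + 1)) := by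
  refine LStep2.of 1 (by norm_num) fun P Q T h b => ?_
  unfold S4 F at h
  unfold S0 F
  cases b <;> simp only [mv_true, mv_false, Bool.not_true, Bool.not_false] <;>
    split_ifs <;> omega

theorem stepL12' (C : ℤ) : LStep2 0 0 (S1 C) (S2' C) := by
  refine LStep2.of 2 (by norm_num) fun P Q T h b => ?_
  unfold S1 F at h
  unfold S2' F
  cases b <;> simp only [mv_true, mv_false, Bool.not_true, Bool.not_false] <;>
    split_ifs <;> omega

theorem stepL2X (C : ℤ) : LStep2 0 1 (S2' C) (XS (C + 1)) := by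
  refine LStep2.of 0 (by norm_num) fun P Q T h b => ?_
  unfold S2' F at h
  unfold XS
  cases b <;> simp only [mv_true, mv_false, Bool.not_true, Bool.not_false] <;>
    split_ifs <;> omega

theorem ExL.X0 {N : ℕ} {R C : ℤ} (hC : 0 ≤ C) (h : ExL N R (XS (C + 1))) : ExL N R (S0 C) := by
  obtain ⟨x, e, h⟩ := h
  refine ⟨x, e, fun s => ?_⟩
  obtain ⟨P, Q, T, hX, hP⟩ := h s
  exact ⟨P, Q, T, ⟨stepX0 C P Q T hC hX.1, hX.2⟩, hP⟩

theorem ExL.period {N : ℕ} {R C : ℤ} (hR : 1 ≤ R) (h : ExL N R (S0 C)) :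
    ExL (N + 5) (R + 2) (S0 (C + 1)) := by
  have := ((((h.lom (stepL01 C) (by omega)).lom (stepL12 C) (by omega)).lom (stepL23 C)
    (by omega)).lom (stepL34 C) (by omega)).lom (stepL40 C) (by omega)
  simpa [add_assoc] using this

theorem ExL.periods {N : ℕ} {R C : ℤ} (hR : 1 ≤ R) (h : ExL N R (S0 C)) (j : ℕ) :
    ExL (N + 5 * j) (R + 2 * j) (S0 (C + j)) := by
  induction j with
  | zero => simpa using h
  | succ j ih =>
    have := ih.period (by omega)
    have e1 : N + 5 * (j + 1) = N + 5 * j + 5 := by ring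
    have e2 : R + 2 * ((j + 1 : ℕ) : ℤ) = R + 2 * j + 2 := by push_cast; ring
    have e3 : C + ((j + 1 : ℕ) : ℤ) = C + j + 1 := by push_cast; ring
    rw [e1, e2, e3]; exact this

theorem ExL.toX {N : ℕ} {R C : ℤ} (hR : 1 ≤ R) (h : ExL N R (S0 C)) :
    ExL (N + 3) (R + 1) (XS (C + 1)) := by
  have := ((h.lom (stepL01 C) (by omega)).lom (stepL12' C) (by omega)).lom (stepL2X C) (by omega)
  simpa [add_assoc] using this

theorem exL_start (C : ℤ) : ExL 1 1 (S1 C) := by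
  obtain ⟨x, e, h⟩ := ex_start C
  refine ⟨x, e, fun s => ?_⟩
  obtain ⟨P, Q, T, hX, hP⟩ := h s
  by_cases h0 : 0 ≤ P
  · exact ⟨P, Q, T, ⟨hX, by omega⟩, hP⟩
  · exfalso
    -- the profiles of the start have nonnegative own level
    unfold S1 F at hX
    obtain ⟨h1, ⟨i, hi, h2⟩, h3⟩ := hP
    have h4 := st_le h2
    omega

/-- The start of a chain. -/
theorem exL_X (C : ℤ) (v : ℕ) : ExL (8 + 5 * v) (4 + 2 * v) (XS C) := by
  have h1 := ((((exL_start (C - 2 - v)).lom (stepL12 _) (by omega)).lom (stepL23 _)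
    (by omega)).lom (stepL34 _) (by omega)).lom (stepL40 _) (by omega)
  have h2 : ExL 5 3 (S0 (C - 1 - v)) := by
    have e : C - 2 - v + 1 = C - 1 - v := by ring
    rw [e] at h1
    simpa using h1
  have h3 := (h2.periods (by omega) v).toX (by omega)
  have e1 : 5 + 5 * v + 3 = 8 + 5 * v := by ring
  have e2 : (3 : ℤ) + 2 * v + 1 = 4 + 2 * v := by ring
  have e3 : C - 1 - (v : ℤ) + v + 1 = C := by ring
  rwa [e1, e2, e3] at h3

/-- What a block of `w` columns (the last one of them a column of the tail) has to do. -/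
def BlockOK2 (w : ℕ) (ρ C1 C2 : ℤ) : Prop :=
  ∀ (N : ℕ) (R : ℤ), 1 ≤ R → ExL N R (XS C1) → ExL (N + w) (R + ρ) (S0 C2)

theorem ExL.cycle {w : ℕ} {ρ C1 C2 : ℤ} (hB : BlockOK2 w ρ C1 C2) (hρ : 0 ≤ ρ) (j : ℕ)
    (hj : C2 + j + 1 = C1) {N : ℕ} {R : ℤ} (hR : 1 ≤ R) (h : ExL N R (XS C1)) :
    ExL (N + (w + 5 * j + 3)) (R + (ρ + 2 * j + 1)) (XS C1) := by
  have h1 := ((hB N R hR h).periods (by omega) j).toX (by omega)
  rw [hj] at h1
  have e1 : N + w + 5 * j + 3 = N + (w + 5 * j + 3) := by ring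
  have e2 : R + ρ + 2 * (j : ℤ) + 1 = R + (ρ + 2 * j + 1) := by ring
  rwa [e1, e2] at h1

theorem ExL.cycles {w : ℕ} {ρ C1 C2 : ℤ} (hB : BlockOK2 w ρ C1 C2) (hρ : 0 ≤ ρ) (j : ℕ)
    (hj : C2 + j + 1 = C1) {N : ℕ} {R : ℤ} (hR : 1 ≤ R) (h : ExL N R (XS C1)) (t : ℕ) :
    ExL (N + (w + 5 * j + 3) * t) (R + (ρ + 2 * j + 1) * t) (XS C1) := by
  induction t with
  | zero => simpa using h
  | succ t ih =>
    have hR' : 1 ≤ R + (ρ + 2 * j + 1) * t := by
      have : 0 ≤ (ρ + 2 * (j : ℤ) + 1) * t := by positivity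
      omega
    have := ih.cycle hB hρ j hj hR'
    have e1 : N + (w + 5 * j + 3) * (t + 1) = N + (w + 5 * j + 3) * t + (w + 5 * j + 3) := by
      ring
    have e2 : R + (ρ + 2 * j + 1) * ((t + 1 : ℕ) : ℤ)
        = R + (ρ + 2 * j + 1) * t + (ρ + 2 * j + 1) := by push_cast; ring
    rw [e1, e2]; exact this

/-- The chain: `t` blocks and a tail. -/
theorem bad_chain2 {w : ℕ} {ρ C1 C2 : ℤ} (v : ℕ) (hB : BlockOK2 w ρ C1 C2)
    (hρ : 0 ≤ ρ) (hC1 : 1 ≤ C1) (j : ℕ) (hj : C2 + j + 1 = C1) (t u r : ℕ)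
    (hr : (r : ℤ) ≤ 4 + 2 * v + (ρ + 2 * j + 1) * t + 2 * u) :
    Bad (9 + 5 * v + (w + 5 * j + 3) * t + 5 * u) r := by
  have h1 := (exL_X C1 v).cycles hB hρ j hj (by omega) t
  have hR' : 1 ≤ 4 + 2 * (v : ℤ) + (ρ + 2 * j + 1) * t := by
    have : 0 ≤ (ρ + 2 * (j : ℤ) + 1) * t := by positivity
    omega
  have e : C1 = (C1 - 1) + 1 := by ring
  rw [e] at h1
  have h2 := (((h1.X0 (by omega)).periods (by linarith) u).toEx).bad r (by linarith)
  have e1 : 8 + 5 * v + (w + 5 * j + 3) * t + 5 * u + 1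
      = 9 + 5 * v + (w + 5 * j + 3) * t + 5 * u := by ring
  rwa [e1] at h2

/-- From level `P` and sign `b`, the signs `t` in the block and `y` in the next column lead at
least to the level `A`. -/
def Reach (m K : ℕ) (Bz : ℕ → ℤ → ℝ) (gz : ℤ → Bool) (P : ℤ) (b : Bool) (t : ℕ → Bool)
    (y : Bool) (A : ℤ) : Prop :=
  ∃ (k : ℕ) (σ : Bool), 1 ≤ k ∧ k ≤ K ∧ Win (fun j i => Bz j (P + i)) m 0 b t k σ ∧
    A ≤ if y = (gz (P + k - 1) == σ) then P + k - 1 else P + k

theorem Reach.self (m K : ℕ) (hK : 1 ≤ K) (Bz : ℕ → ℤ → ℝ) (gz : ℤ → Bool) (P : ℤ) (b : Bool)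
    (t : ℕ → Bool) (y : Bool) : Reach m K Bz gz P b t y P := by
  refine ⟨1, b, le_refl _, hK, win_one _ _ _ _ _, ?_⟩
  split_ifs <;> push_cast <;> omega

/-- The combinatorial condition on a block, second form. -/
def Check2 (m K : ℕ) (Bz : ℕ → ℤ → ℝ) (gz : ℤ → Bool) (ρ : ℤ)
    (X Y : ℤ → ℤ → ℤ → Prop) : Prop :=
  ∀ P Q T, X P Q T → ∀ (b : Bool) (t : ℕ → Bool) (y : Bool), ∃ P' Q' T', Y P' Q' T' ∧
    Reach m K Bz gz P b t y (P' + ρ) ∧
    ((1 ≤ Q ∧ Reach m K Bz gz Q b t y (Q' + ρ)) ∨ (1 ≤ T ∧ Reach m K Bz gz T (!b) t y (Q' + ρ)) ∨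
      ∃ j < m, Reach m K Bz gz P b (flip t j) y (Q' + ρ)) ∧
    Reach m K Bz gz P b t (!y) (T' + ρ) ∧ (P ≤ P' + ρ ∨ 0 ≤ P')

theorem block_ex2 {m : ℕ} {Bz : ℕ → ℤ → ℝ} {gz : ℤ → Bool}
    {K : ℕ} {ρ R : ℤ} {X Y : ℤ → ℤ → ℤ → Prop} (hR : 1 ≤ R) (hρ : 0 ≤ ρ)
    (hc : Check2 m K Bz gz ρ X Y) {N : ℕ} (h : ExL N R X) : ExL (N + (m + 1)) (R + ρ) Y := by
  obtain ⟨x, e, h⟩ := h
  obtain ⟨x1, hx1⟩ := exists_blk x (N + 1) K m fun j i => sg (e i) * Bz j ((i : ℤ) + 1 - R)
  let e' : ℕ → Bool := fun i => (e i == gz ((i : ℤ) + 1 - R))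
  obtain ⟨x2, -, hx2⟩ := exists_col x1 (N + 1 + m) e'
  -- the basic move
  have key : ∀ (u : ℕ → Bool) (b : Bool) (P : ℤ) (t : ℕ → Bool) (y : Bool) (A : ℤ), 1 ≤ P + R →
      St x (N + 1) u (P + R).toNat (b == e ((P + R).toNat - 1)) →
      (∀ j < m, u (N + 1 + j) = t j) → u (N + 1 + m) = y → Reach m K Bz gz P b t y (A + ρ) →
      St x2 (N + (m + 1) + 1) u (A + (R + ρ)).toNat (y == e' ((A + (R + ρ)).toNat - 1)) := by
    intro u b P t y A hpos hst ht hy hA
    have hn : N + (m + 1) + 1 = N + 1 + m + 1 := by ring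
    rw [hn]
    obtain ⟨k, σ, hk1, hkK, hW, hA⟩ := hA
    obtain ⟨a, ha⟩ : ∃ a : ℕ, (a : ℤ) = P + R := ⟨(P + R).toNat, by omega⟩
    have hat : (P + R).toNat = a := by omega
    rw [hat] at hst
    have hW1 : Win (fun j i => Bz j ((i : ℤ) + 1 - R)) m (a - 1) b t k σ := by
      refine win_rows hW fun j _ i _ => ?_
      have : ((a - 1 + i : ℕ) : ℤ) + 1 - R = P + ((0 + i : ℕ) : ℤ) := by
        push_cast [show 1 ≤ a by omega]; omega
      simp only [this]
    have hW2 := win_gauge e hk1 hW1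
    have hW3 := win_congr (t' := fun j => u (N + 1 + j)) (fun j hj => ht j hj) hW2
    have hst1 := hx1 u a _ k _ (by omega) hk1 hkK hst hW3
    have e1 : a - 1 + k - 1 = a + k - 1 - 1 := by omega
    rw [e1] at hst1
    have hst2 := hx2 u _ _ hst1
    rw [hy] at hst2
    have hl : ((a + k - 1 - 1 : ℕ) : ℤ) + 1 - R = P + k - 1 := by omega
    by_cases hstay : y = (gz (P + k - 1) == σ)
    · rw [if_pos hstay] at hA
      have e2 : step e' (a + k - 1, σ == e (a + k - 1 - 1)) y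
          = (a + k - 1, σ == e (a + k - 1 - 1)) := by
        unfold step
        rw [if_pos]
        refine ⟨by simp only; omega, ?_⟩
        simp only [e', hl]
        rw [hstay]
        cases gz (P + k - 1) <;> cases σ <;> cases e (a + k - 1 - 1) <;> decide
      rw [e2] at hst2
      simp only at hst2
      have h3 : (A + (R + ρ)).toNat ≤ a + k - 1 := by omega
      rcases Nat.lt_or_ge (A + (R + ρ)).toNat (a + k - 1) with h4 | h4
      · exact st_lower hst2 h4 _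
      · have h5 : (A + (R + ρ)).toNat = a + k - 1 := by omega
        rw [h5]
        have e3 : (y == e' (a + k - 1 - 1)) = (σ == e (a + k - 1 - 1)) := by
          simp only [e', hl]
          rw [hstay]
          cases gz (P + k - 1) <;> cases σ <;> cases e (a + k - 1 - 1) <;> decide
        rw [e3]; exact hst2
    · rw [if_neg hstay] at hA
      have e2 : step e' (a + k - 1, σ == e (a + k - 1 - 1)) y
          = (a + k - 1 + 1, y == e' (a + k - 1)) := by
        unfold step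
        rw [if_neg]
        rintro ⟨-, h6⟩
        apply hstay
        simp only [e', hl] at h6
        rw [h6]
        cases gz (P + k - 1) <;> cases σ <;> cases e (a + k - 1 - 1) <;> decide
      rw [e2] at hst2
      simp only at hst2
      have h3 : (A + (R + ρ)).toNat ≤ a + k - 1 + 1 := by omega
      rcases Nat.lt_or_ge (A + (R + ρ)).toNat (a + k - 1 + 1) with h4 | h4
      · exact st_lower hst2 h4 _
      · have h5 : (A + (R + ρ)).toNat = a + k - 1 + 1 := by omega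
        rw [h5]
        exact hst2
  -- the new profiles
  refine ⟨x2, e', fun s => ?_⟩
  obtain ⟨P, Q, T, ⟨hX, hPR⟩, hP, ⟨i, hi, hQ⟩, hT⟩ := h s
  obtain ⟨P', Q', T', hY, q1, q2, q3, q4⟩ := hc P Q T hX (s N) (fun j => s (N + 1 + j))
    (s (N + 1 + m))
  have eN : N + (m + 1) = N + 1 + m := by ring
  refine ⟨P', Q', T', ⟨hY, by omega⟩, ?_, ?_, ?_⟩
  · rw [show s (N + (m + 1)) = s (N + 1 + m) by rw [eN]]
    exact key s (s N) P _ _ P' hPR hP (fun j _ => rfl) rfl q1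
  · rw [show s (N + (m + 1)) = s (N + 1 + m) by rw [eN]]
    rcases q2 with ⟨q0, q2⟩ | ⟨q0, q2⟩ | ⟨j, hj, q2⟩
    · refine ⟨i, by omega, ?_⟩
      exact key (flip s i) (s N) Q (fun j => s (N + 1 + j)) _ Q' (by omega) hQ
        (fun j _ => flip_apply_ne (by omega)) (flip_apply_ne (by omega)) q2
    · refine ⟨N, by omega, ?_⟩
      exact key (flip s N) (!s N) T (fun j => s (N + 1 + j)) _ Q' (by omega) hT
        (fun j _ => flip_apply_ne (by omega)) (flip_apply_ne (by omega)) q2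
    · refine ⟨N + 1 + j, by omega, ?_⟩
      refine key (flip s (N + 1 + j)) (s N) P (flip (fun j => s (N + 1 + j)) j) _ Q' hPR
        (st_congr (fun l hl => flip_apply_ne (by omega)) hP) (fun l _ => ?_)
        (flip_apply_ne (by omega)) q2
      by_cases hlj : l = j
      · subst hlj
        rw [flip_apply_self, flip_apply_self]
      · rw [flip_apply_ne hlj, flip_apply_ne (by omega)]
  · rw [show flip s (N + (m + 1)) = flip s (N + 1 + m) by rw [eN],
      show s (N + (m + 1)) = s (N + 1 + m) by rw [eN]]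
    exact key (flip s (N + 1 + m)) (s N) P (fun j => s (N + 1 + j)) _ T' hPR
      (st_congr (fun l hl => flip_apply_ne (by omega)) hP)
      (fun j hj => flip_apply_ne (by omega)) (flip_apply_self _ _) q3

end Pool.Agent.H77.Nu
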