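import Pool.Agent.H77.Nu.BlockStep

/-!
Weak form of Descartes' rule, and the windows of a block in pure rows (MP_1e71f9_co).
-/

set_option autoImplicit false

namespace Pool.Agent.H77.Nu

open Finset Pool.Agent.H67.Nu

theorem sign_prod (k r : ℕ) (hr : r < k) (x : ℕ → ℝ) (hx : ∀ a b, a < b → b < k → x a < x b) :
    0 < (-1 : ℝ) ^ (k - 1 - r) * ∏ j ∈ (range k).erase r, (x r - x j) := by
  have e1 : (range k).erase r = range r ∪ Ico (r + 1) k := by
    ext j
    simp only [mem_erase, mem_range, mem_union, mem_Ico]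
    omega
  have hdis : Disjoint (range r) (Ico (r + 1) k) := by
    rw [disjoint_left]
    intro j hj hj'
    simp only [mem_range, mem_Ico] at hj hj'
    omega
  rw [e1, prod_union hdis]
  have e2 : ∏ j ∈ Ico (r + 1) k, (x r - x j)
      = (-1 : ℝ) ^ (k - 1 - r) * ∏ j ∈ Ico (r + 1) k, (x j - x r) := by
    have : ∏ j ∈ Ico (r + 1) k, (x r - x j) = ∏ j ∈ Ico (r + 1) k, (-1) * (x j - x r) :=
      prod_congr rfl fun j _ => by ring
    rw [this, prod_mul_distrib, prod_const, Nat.card_Ico]
    congr 2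
    omega
  rw [e2]
  have h1 : 0 < ∏ j ∈ range r, (x r - x j) :=
    prod_pos fun j hj => sub_pos.2 (hx j r (mem_range.1 hj) hr)
  have h2 : 0 < ∏ j ∈ Ico (r + 1) k, (x j - x r) :=
    prod_pos fun j hj => sub_pos.2 (hx r j (by have := (mem_Ico.1 hj).1; omega) (mem_Ico.1 hj).2)
  have h3 : (-1 : ℝ) ^ (k - 1 - r) * (-1 : ℝ) ^ (k - 1 - r) = 1 := by
    rw [← pow_add, ← two_mul, pow_mul]; norm_num
  calc (0 : ℝ) < (∏ j ∈ range r, (x r - x j)) * ∏ j ∈ Ico (r + 1) k, (x j - x r) :=
        mul_pos h1 h2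
    _ = ((-1 : ℝ) ^ (k - 1 - r) * (-1 : ℝ) ^ (k - 1 - r)) *
        ((∏ j ∈ range r, (x r - x j)) * ∏ j ∈ Ico (r + 1) k, (x j - x r)) := by rw [h3, one_mul]
    _ = _ := by ring

/-- A polynomial of degree less than `k` with alternating weak signs at `k` points. -/
theorem desc_core (k : ℕ) (x : ℕ → ℝ) (hx : ∀ a b, a < b → b < k → x a < x b) (c : ℕ → ℝ)
    (hc : ∃ i < k, c i ≠ 0) (σ : ℝ)
    (h : ∀ r < k, 0 ≤ σ * (-1) ^ (k - 1 - r) * ∑ i ∈ range k, c i * x r ^ i) :
    0 ≤ σ * c (k - 1) ∧ (σ ≠ 0 → 0 < σ * c (k - 1)) := by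
  classical
  let p : Polynomial ℝ := ∑ i ∈ range k, Polynomial.C (c i) * Polynomial.X ^ i
  have hk : 0 < k := by obtain ⟨i, hi, _⟩ := hc; omega
  have hcoef : ∀ i < k, p.coeff i = c i := by
    intro i hi
    simp only [p, Polynomial.finsetSum_coeff, Polynomial.coeff_C_mul, Polynomial.coeff_X_pow]
    rw [sum_eq_single_of_mem i (mem_range.2 hi)]
    · simp
    · intro j _ hj
      rw [if_neg (Ne.symm hj), mul_zero]
  have hdeg : p.degree < (#(range k) : ℕ) := by
    rw [card_range]
    refine (Polynomial.degree_lt_iff_coeff_zero _ _).2 fun i hi => ?_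
    simp only [p, Polynomial.finsetSum_coeff, Polynomial.coeff_C_mul, Polynomial.coeff_X_pow]
    refine sum_eq_zero fun j hj => ?_
    have := mem_range.1 hj
    rw [if_neg (by omega), mul_zero]
  have heval : ∀ r, p.eval (x r) = ∑ i ∈ range k, c i * x r ^ i := by
    intro r
    simp only [p, Polynomial.eval_finsetSum, Polynomial.eval_mul, Polynomial.eval_C,
      Polynomial.eval_pow, Polynomial.eval_X]
  have hinj : Set.InjOn x (range k : Finset ℕ) := by
    intro a ha b hb hab
    simp only [coe_range, Set.mem_Iio] at ha hb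
    rcases lt_trichotomy a b with h1 | h1 | h1
    · exact absurd hab (hx a b h1 hb).ne
    · exact h1
    · exact absurd hab (hx b a h1 ha).ne'
  have key := Lagrange.coeff_eq_sum hinj hdeg
  rw [card_range, hcoef (k - 1) (by omega)] at key
  have hterm : ∀ r ∈ range k, 0 ≤ σ * (p.eval (x r) / ∏ j ∈ (range k).erase r, (x r - x j)) := by
    intro r hr
    have hr' := mem_range.1 hr
    have h1 := sign_prod k r hr' x hx
    have h2 := h r hr'
    rw [← heval r] at h2
    have h3 : (-1 : ℝ) ^ (k - 1 - r) * (-1 : ℝ) ^ (k - 1 - r) = 1 := by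
      rw [← pow_add, ← two_mul, pow_mul]; norm_num
    have h4 : (-1 : ℝ) ^ (k - 1 - r) ≠ 0 := pow_ne_zero _ (by norm_num)
    have e : σ * (p.eval (x r) / ∏ j ∈ (range k).erase r, (x r - x j))
        = (σ * (-1) ^ (k - 1 - r) * p.eval (x r)) /
          ((-1 : ℝ) ^ (k - 1 - r) * ∏ j ∈ (range k).erase r, (x r - x j)) := by
      have h5 : ∏ j ∈ (range k).erase r, (x r - x j) ≠ 0 := by
        intro h0; rw [h0, mul_zero] at h1; exact lt_irrefl _ h1
      field_simp
    rw [e]
    exact div_nonneg h2 h1.le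
  have hsum : σ * c (k - 1) = ∑ r ∈ range k,
      σ * (p.eval (x r) / ∏ j ∈ (range k).erase r, (x r - x j)) := by
    rw [key, mul_sum]
  refine ⟨by rw [hsum]; exact sum_nonneg hterm, fun hσ => ?_⟩
  rcases (sum_nonneg hterm).lt_or_eq with h1 | h1
  · rw [hsum]; exact h1
  · exfalso
    have hz := (sum_eq_zero_iff_of_nonneg hterm).1 h1.symm
    have hp : p = 0 := by
      refine Polynomial.eq_zero_of_degree_lt_of_eval_index_eq_zero _ hinj hdeg fun r hr => ?_
      have h2 := hz r hr
      have h3 := sign_prod k r (mem_range.1 hr) x hx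
      have h5 : ∏ j ∈ (range k).erase r, (x r - x j) ≠ 0 := by
        intro h0; rw [h0, mul_zero] at h3; exact lt_irrefl _ h3
      have h6 := (mul_eq_zero.1 h2).resolve_left hσ
      exact (div_eq_zero_iff.1 h6).resolve_right h5
    obtain ⟨i, hi, hci⟩ := hc
    apply hci
    rw [← hcoef i hi, hp, Polynomial.coeff_zero]

/-- The number of sign changes among `τ 0, …, τ n`. -/
def ch (τ : ℕ → Bool) : ℕ → ℕ
  | 0 => 0
  | n + 1 => ch τ n + if τ (n + 1) = τ n then 0 else 1

theorem sel (τ : ℕ → Bool) (n : ℕ) : ∃ j : ℕ → ℕ, (∀ r s, r < s → s ≤ ch τ n → j r < j s) ∧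
    (∀ r ≤ ch τ n, j r ≤ n) ∧
    ∀ r ≤ ch τ n, sg (τ (j r)) = sg (τ n) * (-1) ^ (ch τ n - r) := by
  induction n with
  | zero =>
    refine ⟨fun _ => 0, fun r s hrs hs => ?_, fun _ _ => le_refl _, fun r hr => ?_⟩
    · simp only [ch] at hs; omega
    · simp only [ch] at hr ⊢
      have : r = 0 := by omega
      subst this
      simp
  | succ n ih =>
    obtain ⟨j, h1, h2, h3⟩ := ih
    by_cases hτ : τ (n + 1) = τ n
    · have e : ch τ (n + 1) = ch τ n := by simp [ch, hτ]
      rw [e]
      exact ⟨j, h1, fun r hr => le_trans (h2 r hr) (by omega), fun r hr => by rw [hτ]; exact h3 r hr⟩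
    · have e : ch τ (n + 1) = ch τ n + 1 := by simp [ch, hτ]
      rw [e]
      have hsg : sg (τ n) = -sg (τ (n + 1)) := by
        revert hτ
        cases τ (n + 1) <;> cases τ n <;> simp [sg]
      refine ⟨fun r => if r ≤ ch τ n then j r else n + 1, fun r s hrs hs => ?_, fun r hr => ?_,
        fun r hr => ?_⟩
      · by_cases hs' : s ≤ ch τ n
        · simp only [hs', if_true, (by omega : r ≤ ch τ n)]
          exact h1 r s hrs hs'
        · simp only [hs', if_false, (by omega : r ≤ ch τ n), if_true]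
          have := h2 r (by omega)
          omega
      · show (if r ≤ ch τ n then j r else n + 1) ≤ n + 1
        split_ifs with h
        · have := h2 r h; omega
        · exact le_refl _
      · by_cases h : r ≤ ch τ n
        · simp only [h, if_true]
          rw [h3 r h, hsg, show ch τ n + 1 - r = (ch τ n - r) + 1 by omega, pow_succ]
          ring
        · have hr' : r = ch τ n + 1 := by omega
          subst hr'
          simp

/-- Weak form of Descartes' rule. -/
theorem desc (τ : ℕ → Bool) (n : ℕ) (X : ℕ → ℝ) (hX : ∀ a b, a < b → b ≤ n → X a < X b)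
    (c : ℕ → ℝ) (hc : ∃ i < ch τ n + 1, c i ≠ 0)
    (h : ∀ a ≤ n, 0 ≤ sg (τ a) * ∑ i ∈ range (ch τ n + 1), c i * X a ^ i) :
    0 < sg (τ n) * c (ch τ n) := by
  obtain ⟨j, h1, h2, h3⟩ := sel τ n
  have := (desc_core (ch τ n + 1) (fun r => X (j r))
    (fun a b hab hb => hX _ _ (h1 a b hab (by omega)) (h2 b (by omega))) c hc (sg (τ n)) (by
      intro r hr
      have h4 := h (j r) (h2 r (by omega))
      rw [h3 r (by omega)] at h4
      have e : ch τ n + 1 - 1 - r = ch τ n - r := by omega
      rw [e]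
      exact h4)).2 (sg_ne _)
  simpa using this

/-- The signs of a window in low rows. -/
def tl (b : Bool) (t : ℕ → Bool) : ℕ → Bool
  | 0 => b
  | j + 1 => t j

/-- The signs of a window in high rows. -/
def th (b : Bool) (t : ℕ → Bool) (n : ℕ) : Bool := xor (tl b t n) (decide (n % 2 = 1))

theorem ch_le (τ : ℕ → Bool) (n : ℕ) : ch τ n ≤ n := by
  induction n with
  | zero => exact le_refl _
  | succ n ih =>
    simp only [ch]
    split_ifs <;> omega

theorem ch_add (b : Bool) (t : ℕ → Bool) (n : ℕ) : ch (tl b t) n + ch (th b t) n = n := by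
  induction n with
  | zero => rfl
  | succ n ih =>
    simp only [ch]
    have h : (th b t (n + 1) = th b t n) ↔ ¬ (tl b t (n + 1) = tl b t n) := by
      unfold th
      rcases Nat.mod_two_eq_zero_or_one n with h0 | h0
      · have h1 : (n + 1) % 2 = 1 := by omega
        rw [h0, h1]
        cases tl b t (n + 1) <;> cases tl b t n <;> decide
      · have h1 : (n + 1) % 2 = 0 := by omega
        rw [h0, h1]
        cases tl b t (n + 1) <;> cases tl b t n <;> decide
    by_cases h1 : tl b t (n + 1) = tl b t n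
    · have h2 : ¬ (th b t (n + 1) = th b t n) := fun h3 => h.1 h3 h1
      rw [if_pos h1, if_neg h2]; omega
    · have h2 : th b t (n + 1) = th b t n := h.2 h1
      rw [if_neg h1, if_pos h2]; omega

/-- A window in pure low rows. -/
theorem win_low {A : ℕ → ℕ → ℝ} {m : ℕ} (b : Bool) (t : ℕ → Bool) (w y : ℕ → ℝ)
    (hw : ∀ j < m, 0 < w j) (hy : ∀ j < m, 0 < y j) (hyy : ∀ a c, a < c → c < m → y a < y c)
    (hA : ∀ j < m, ∀ i < ch (tl b t) m + 1, A j i = w j * y j ^ i) :
    Win A m 0 b t (ch (tl b t) m + 1) (tl b t m) := by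
  intro c hc h0 hj
  have hX : ∀ a d, a < d → d ≤ m →
      (fun n => (if n = 0 then 0 else y (n - 1) : ℝ)) a < (fun n => if n = 0 then 0 else y (n - 1)) d := by
    intro a d had hd
    have hd0 : d ≠ 0 := by omega
    simp only [hd0, if_false]
    by_cases ha : a = 0
    · simp only [ha, if_true]
      exact hy _ (by omega)
    · simp only [ha, if_false]
      exact hyy _ _ (by omega) (by omega)
  have := desc (tl b t) m (fun n => if n = 0 then 0 else y (n - 1)) hX c hc (by
    intro a ha
    rcases Nat.eq_zero_or_pos a with rfl | ha0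
    · have e : ∑ i ∈ range (ch (tl b t) m + 1), c i *
          ((fun n => (if n = 0 then 0 else y (n - 1) : ℝ)) 0) ^ i = c 0 := by
        rw [sum_eq_single_of_mem 0 (mem_range.2 (by omega))]
        · simp
        · intro i _ hi
          simp [hi]
      rw [e]
      exact h0
    · obtain ⟨j, rfl⟩ : ∃ j, a = j + 1 := ⟨a - 1, by omega⟩
      have h1 := hj j (by omega)
      have e : ∑ i ∈ range (ch (tl b t) m + 1), c i * A j (0 + i)
          = w j * ∑ i ∈ range (ch (tl b t) m + 1), c i *
            ((fun n => (if n = 0 then 0 else y (n - 1) : ℝ)) (j + 1)) ^ i := by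
        rw [mul_sum]
        refine sum_congr rfl fun i hi => ?_
        rw [zero_add, hA j (by omega) i (mem_range.1 hi)]
        simp only [Nat.succ_ne_zero, if_false, Nat.add_sub_cancel]
        ring
      rw [e] at h1
      have hw' := hw j (by omega)
      have e2 : sg (t j) * (w j * ∑ i ∈ range (ch (tl b t) m + 1), c i *
            ((fun n => (if n = 0 then 0 else y (n - 1) : ℝ)) (j + 1)) ^ i)
          = w j * (sg (t j) * ∑ i ∈ range (ch (tl b t) m + 1), c i *
            ((fun n => (if n = 0 then 0 else y (n - 1) : ℝ)) (j + 1)) ^ i) := by ring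
      rw [e2] at h1
      exact nonneg_of_mul_nonneg_right h1 hw')
  simpa using this

theorem sg_xor (a b : Bool) : sg (xor a b) = sg a * (if b then -1 else 1) := by
  cases a <;> cases b <;> simp [sg]

/-- A window in pure high rows. -/
theorem win_high {A : ℕ → ℕ → ℝ} {m : ℕ} (b : Bool) (t : ℕ → Bool) (w y : ℕ → ℝ)
    (hw : ∀ j < m, 0 < w j) (hy : ∀ j < m, 0 < y j) (hyy : ∀ a c, a < c → c < m → y a < y c)
    (hA : ∀ j < m, ∀ i < ch (th b t) m + 1,
      A j i = (if (j + 1) % 2 = 1 then -1 else 1) * (w j * y j ^ i)) :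
    Win A m 0 b t (ch (th b t) m + 1) (th b t m) := by
  have hth : ∀ n, th b t n = tl b (fun j => xor (t j) (decide ((j + 1) % 2 = 1))) n := by
    intro n
    rcases n with _ | n
    · simp [th, tl]
    · simp [th, tl]
  have hch : ch (th b t) m = ch (tl b (fun j => xor (t j) (decide ((j + 1) % 2 = 1)))) m := by
    congr 1
    funext n; exact hth n
  have h := win_low (A := fun j i => w j * y j ^ i) (m := m) b
    (fun j => xor (t j) (decide ((j + 1) % 2 = 1))) w y hw hy hyy (fun j _ i _ => rfl)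
  rw [← hch, ← hth m] at h
  intro c hc h0 hj
  refine h c hc h0 fun j hjm => ?_
  have h1 := hj j hjm
  have e : ∑ i ∈ range (ch (th b t) m + 1), c i * A j (0 + i)
      = (if (j + 1) % 2 = 1 then -1 else 1) *
        ∑ i ∈ range (ch (th b t) m + 1), c i * (w j * y j ^ (0 + i)) := by
    rw [mul_sum]
    refine sum_congr rfl fun i hi => ?_
    rw [zero_add, hA j hjm i (mem_range.1 hi)]
    ring
  rw [e] at h1
  rw [sg_xor]
  by_cases hodd : (j + 1) % 2 = 1
  · simp only [hodd, if_true, decide_true] at h1 ⊢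
    linarith
  · simp only [hodd, if_false, decide_false, Bool.false_eq_true] at h1 ⊢
    linarith

end Pool.Agent.H77.Nu
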